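import Pool.Agent.Helper29.HP.St.DixMat

set_option autoImplicit false

/-!
Piece EK-E3: from the matrix of quartics to the symmetric determinantal representation of a
smooth quintic (quintic version of `Pool.Agent.Helper29.HP.St.DixMat`).
-/

namespace Pool.Agent.Helper80.EK

open MvPolynomial Pool.Agent.Helper29.HP

theorem dix_abs5 {R : Type*} [CommRing R] [IsDomain R] (δ c : R) (hδ : Prime δ) (hc : c ≠ 0)
    (A : Matrix (Fin 5) (Fin 5) R) (hA : A.IsSymm)
    (hmin : ∀ i j k l, δ ∣ A i j * A k l - A i l * A k j) (hdet : A.det = δ ^ 4 * c) :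
    ∃ M : Matrix (Fin 5) (Fin 5) R, M.IsSymm ∧ (∀ i j, A.adjugate i j = δ ^ 3 * M i j) ∧
      M.det = c ^ 4 * δ ∧ ∀ i j, M.adjugate i j = c ^ 3 * A i j := by
  classical
  have hδ0 : δ ≠ 0 := hδ.ne_zero
  have hadjd : ∀ i j, δ ^ 3 ∣ A.adjugate i j := by
    intro i j
    rw [Matrix.adjugate_fin_succ_eq_det_submatrix]
    apply Dvd.dvd.mul_left
    apply det_dvd_of_minors δ hδ 3
    intro i' j' k' l'
    exact hmin _ _ _ _
  choose M0 hM0 using hadjd
  obtain ⟨M1, hM1⟩ : ∃ M1 : Matrix (Fin 5) (Fin 5) R, M1 = Matrix.of M0 := ⟨_, rfl⟩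
  have hadj1 : A.adjugate = δ ^ 3 • M1 := by
    ext i j
    rw [hM1, Matrix.smul_apply, smul_eq_mul]
    exact hM0 i j
  have hMA : M1 * A = (c * δ) • (1 : Matrix (Fin 5) (Fin 5) R) := by
    have h1 := Matrix.adjugate_mul A
    rw [hadj1, hdet, Matrix.smul_mul] at h1
    apply smul_cancel (pow_ne_zero 3 hδ0)
    rw [h1, smul_smul]
    congr 1
    ring
  have hdetM1 : M1.det = c ^ 4 * δ := by
    have h1 := congrArg Matrix.det hMA
    rw [Matrix.det_mul, Matrix.det_smul, Matrix.det_one, Fintype.card_fin, hdet] at h1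
    have h2 : (δ ^ 4 * c) * M1.det = (δ ^ 4 * c) * (c ^ 4 * δ) := by
      linear_combination h1
    exact mul_left_cancel₀ (mul_ne_zero (pow_ne_zero 4 hδ0) hc) h2
  have hadjM1 : M1.adjugate = (c ^ 3) • A := by
    have h1 : M1 * M1.adjugate = M1 * ((c ^ 3) • A) := by
      rw [Matrix.mul_adjugate, Matrix.mul_smul, hMA, hdetM1, smul_smul]
      congr 1
      ring
    have h2 := congrArg (fun Z => M1.adjugate * Z) h1
    simp only [← Matrix.mul_assoc, Matrix.adjugate_mul, Matrix.smul_mul, Matrix.one_mul] at h2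
    apply smul_cancel _ h2
    rw [hdetM1]
    exact mul_ne_zero (pow_ne_zero 4 hc) hδ0
  refine ⟨M1, ?_, ?_, hdetM1, ?_⟩
  · have h1 : (A.adjugate).transpose = A.adjugate := by
      rw [Matrix.adjugate_transpose, hA]
    rw [hadj1, Matrix.transpose_smul] at h1
    exact smul_cancel (pow_ne_zero 3 hδ0) h1
  · intro i j
    rw [hM1]; exact hM0 i j
  · intro i j
    rw [hadjM1, Matrix.smul_apply, smul_eq_mul]

theorem dix5 (δ : P3) (hδ : δ.IsHomogeneous 5) (hirr : Irreducible δ)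
    (A : Matrix (Fin 5) (Fin 5) P3) (hA : A.IsSymm) (hA5 : ∀ i j, (A i j).IsHomogeneous 4)
    (hmin : ∀ i j k l, δ ∣ A i j * A k l - A i l * A k j)
    (hns : ∀ p : Fin 3 → ℂ, eval p δ ≠ 0 → (A.map (eval p)).det ≠ 0) :
    ∃ M : Matrix (Fin 5) (Fin 5) P3, M.IsSymm ∧ (∀ i j, (M i j).IsHomogeneous 1) ∧
      M.det = δ ∧ ∃ c : ℂ, c ≠ 0 ∧ ∀ i j, M.adjugate i j = C c * A i j := by
  classical
  have hev : ∀ z : Fin 3 → ℂ, (A.map (eval z)).det = eval z A.det := by
    intro z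
    exact (RingHom.map_det (eval z) A).symm
  have heva : ∀ (z : Fin 3 → ℂ) i j, (A.map (eval z)).adjugate i j = eval z (A.adjugate i j) := by
    intro z i j
    have := RingHom.map_adjugate (eval z) A
    rw [RingHom.mapMatrix_apply, RingHom.mapMatrix_apply] at this
    rw [← this, Matrix.map_apply]
  have hsc : ∀ (a : ℂ) (z : Fin 3 → ℂ), A.map (eval (a • z)) = (a ^ 4) • A.map (eval z) := by
    intro a z
    ext i j
    rw [Matrix.smul_apply, Matrix.map_apply, Matrix.map_apply, smul_eq_mul]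
    exact Pool.Agent.Helper16.eval_smul_of_hom (hA5 i j) a z
  have hdet : A.det.IsHomogeneous 20 := by
    apply Pool.Agent.Helper16.isHomogeneous_of_eval
    intro a z
    rw [← hev, ← hev, hsc, Matrix.det_smul, Fintype.card_fin, ← pow_mul]
  have hadj : ∀ i j, (A.adjugate i j).IsHomogeneous 16 := by
    intro i j
    apply Pool.Agent.Helper16.isHomogeneous_of_eval
    intro a z
    rw [← heva, ← heva, hsc, Matrix.adjugate_smul, Fintype.card_fin, Matrix.smul_apply,
      ← pow_mul, smul_eq_mul]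
  -- the determinant
  obtain ⟨e, he⟩ := det_dvd_of_minors δ hirr.prime 4 A hmin
  have hδ0 : δ ≠ 0 := hirr.ne_zero
  obtain ⟨p0, hp0⟩ : ∃ p, eval p δ ≠ 0 := by
    by_contra hcon
    push Not at hcon
    exact hδ0 (MvPolynomial.funext fun p => by rw [hcon, map_zero])
  have hdet0 : A.det ≠ 0 := by
    intro h
    have := hns p0 hp0
    rw [hev, h, map_zero] at this
    exact this rfl
  obtain ⟨c, hc0, hc⟩ : ∃ c : ℂ, c ≠ 0 ∧ e = C c := by
    have h1 : (δ ^ 4 * e).IsHomogeneous 20 := he ▸ hdet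
    obtain ⟨a, b, ha, hb, hab⟩ := Pool.Agent.Helper16.hom_factor h1 (he ▸ hdet0)
    have h2 : a = 20 := ha.inj_right (hδ.pow 4) (pow_ne_zero 4 hδ0)
    have h3 : b = 0 := by omega
    rw [h3] at hb
    have h4 : e.totalDegree = 0 := by
      have := hb.totalDegree_le
      omega
    rw [totalDegree_eq_zero_iff_eq_C] at h4
    refine ⟨coeff 0 e, ?_, h4⟩
    intro h5
    rw [h5, map_zero] at h4
    rw [h4, mul_zero] at he
    exact hdet0 he
  have hCc : (C c : P3) ≠ 0 := by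
    rw [Ne, C_eq_zero]; exact hc0
  obtain ⟨M1, hM1s, hM1a, hdetM1, hadjM1⟩ := dix_abs5 δ (C c) hirr.prime hCc A hA hmin
    (he.trans (by rw [hc]))
  have hM1h : ∀ i j, (M1 i j).IsHomogeneous 1 := by
    intro i j
    by_cases h0 : M1 i j = 0
    · rw [h0]; exact isHomogeneous_zero _ _ _
    · have h2 : (δ ^ 3 * M1 i j).IsHomogeneous 16 := hM1a i j ▸ hadj i j
      obtain ⟨a, b, ha, hb, hab⟩ := Pool.Agent.Helper16.hom_factor h2
        (mul_ne_zero (pow_ne_zero 3 hδ0) h0)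
      have h3 : a = 15 := ha.inj_right (hδ.pow 3) (pow_ne_zero 3 hδ0)
      have h4 : b = 1 := by omega
      rwa [h4] at hb
  -- rescale
  obtain ⟨l, hl⟩ := IsAlgClosed.exists_pow_nat_eq ((c ^ 4)⁻¹) (show 0 < 5 by norm_num)
  have hl0 : l ≠ 0 := by
    rintro rfl
    rw [zero_pow (by norm_num)] at hl
    exact inv_ne_zero (pow_ne_zero 4 hc0) hl.symm
  obtain ⟨r, hr⟩ : ∃ r : P3, r = C l := ⟨_, rfl⟩
  have h6 : r ^ 5 * C c ^ 4 = 1 := by
    rw [hr, ← map_pow, ← map_pow, ← map_mul, hl, inv_mul_cancel₀ (pow_ne_zero 4 hc0), map_one]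
  refine ⟨r • M1, ?_, ?_, ?_, l ^ 4 * c ^ 3, ?_, ?_⟩
  · rw [Matrix.IsSymm, Matrix.transpose_smul, hM1s]
  · intro i j
    have h7 : (r • M1) i j = C l * M1 i j := by rw [hr]; rfl
    rw [h7]
    exact (hM1h i j).C_mul l
  · rw [Matrix.det_smul, Fintype.card_fin, hdetM1, ← mul_assoc, h6, one_mul]
  · exact mul_ne_zero (pow_ne_zero 4 hl0) (pow_ne_zero 3 hc0)
  · intro i j
    have h7 : (r • M1).adjugate i j = r ^ 4 * M1.adjugate i j := by
      rw [Matrix.adjugate_smul, Fintype.card_fin]; rfl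
    rw [h7, hadjM1, hr, map_mul, map_pow, map_pow, ← mul_assoc]

end Pool.Agent.Helper80.EK
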