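import Pool.Agent.Helper80.EK.Defs
import Pool.Agent.Helper73.GE.Dom

set_option autoImplicit false

/-!
Piece EK-E6 (dominance, helper73).  Let `q = det (net5 m)` be smooth and `p' ≠ 0` a common zero of
the three quadrics `m k`.  The rational map `v ↦ TT (ext6 m) (0, p') v` is dominant.
Proof in `Pool.Agent.Helper73.GE.Dom`.
-/

namespace Pool.Agent.Helper80.EK

open MvPolynomial Pool.Agent.Helper29.HP

theorem cm_net5 (m : Fin 3 → Matrix (Fin 5) (Fin 5) ℂ) : Helper73.GE.cm (net5 m) = m := by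
  funext k
  ext i j
  rw [Helper73.GE.cm, Matrix.of_apply, net5, Matrix.of_apply, coeff_sum, Finset.sum_eq_single k]
  · rw [coeff_C_mul, coeff_X, if_pos rfl, mul_one]
  · intro b _ hb
    rw [coeff_C_mul, coeff_X, if_neg, mul_zero]
    intro h
    exact hb (Finsupp.single_left_injective one_ne_zero h)
  · simp

theorem ext6_eq (m : Fin 3 → Matrix (Fin 5) (Fin 5) ℂ) : Helper73.GE.ext6 1 m = ext6 m := by
  funext k
  ext i j
  refine Fin.cases ?_ (fun i => ?_) i <;> refine Fin.cases ?_ (fun j => ?_) j <;> rfl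

theorem dominant5 (m : Fin 3 → Matrix (Fin 5) (Fin 5) ℂ) (hm : ∀ k, (m k).IsSymm)
    (p : Fin 5 → ℂ) (hp : p ≠ 0) (hpp : ∀ k, p ⬝ᵥ (m k).mulVec p = 0)
    (hirr : Irreducible (net5 m).det)
    (hsm : ∀ z : Fin 3 → ℂ, z ≠ 0 → eval z (net5 m).det = 0 →
      ∃ i, eval z (pderiv i (net5 m).det) ≠ 0) (h : P3) (hh : h ≠ 0) :
    ∃ v : Fin 6 → ℂ, eval (TT (ext6 m) (Fin.cons 0 p) v) h ≠ 0 := by
  have hM1 : ∀ i j, (net5 m i j).IsHomogeneous 1 := by
    intro i j
    change (∑ k, C (m k i j) * X k : P3).IsHomogeneous 1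
    exact MvPolynomial.IsHomogeneous.sum _ _ _ fun k _ => isHomogeneous_C_mul_X _ _
  have hM : (net5 m).IsSymm := by
    apply Matrix.IsSymm.ext
    intro i j
    rw [net5, Matrix.of_apply, Matrix.of_apply]
    exact Finset.sum_congr rfl fun k _ => by rw [(hm k).apply]
  have hdh : (net5 m).det.IsHomogeneous 5 := by
    rw [Matrix.det_apply]
    refine IsHomogeneous.sum _ _ _ fun σ _ => ?_
    have h1 : (∏ i, net5 m (σ i) i).IsHomogeneous 5 := by
      have := IsHomogeneous.prod Finset.univ (fun i => net5 m (σ i) i) (fun _ => 1)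
        (fun i _ => hM1 (σ i) i)
      simpa using this
    rcases Int.units_eq_one_or σ.sign with h2 | h2
    · rw [h2, one_smul]; exact h1
    · rw [h2, Units.neg_smul, one_smul]; exact h1.neg
  have hX : ¬ (X 0 : P3) ∣ (net5 m).det := by
    rintro ⟨r, hr⟩
    rcases hirr.isUnit_or_isUnit hr with hu | hu
    · exact (X_prime (R := ℂ) (i := (0 : Fin 3))).not_isUnit hu
    · have h1 := MvPolynomial.isUnit_iff_totalDegree_of_isReduced.mp hu
      have h2 := hdh.totalDegree hirr.ne_zero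
      have hr0 : r ≠ 0 := by rintro rfl; exact not_isUnit_zero hu
      rw [hr, totalDegree_mul_of_isDomain (X_ne_zero 0) hr0, totalDegree_X] at h2
      omega
  have h1 := Helper73.GE.dominant5 (κ := 1) one_ne_zero hM hM1 hirr hX hsm hp
    (by rw [cm_net5]; exact hpp) h hh
  rw [cm_net5, ext6_eq] at h1
  exact h1

end Pool.Agent.Helper80.EK
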