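import Pool.Agent.Helper29.HP.Main

set_option autoImplicit false

/-!
Piece EK-E4: even multiplicities along the smooth quintic.
-/

namespace Pool.Agent.Helper80.EK

open MvPolynomial Pool.Agent.Helper29.HP

theorem evenOn_adj5 (N : Matrix (Fin 3) (Fin 3) P3) (hN : N.IsSymm)
    (hsm : ∀ z : Fin 3 → ℂ, z ≠ 0 → eval z N.det = 0 → ∃ i, eval z (pderiv i N.det) ≠ 0)
    (j : Fin 3) : EvenOn N.det (N.adjugate j j) := by
  intro z hz hdet
  have hA : ∀ a b, N.adjugate a b = N.adjugate b a := fun a b => hN.adjugate.apply b a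
  have hex : ∃ i, eval z (N.adjugate i i) ≠ 0 := by
    by_contra hcon
    push Not at hcon
    have h0 : ∀ a b, eval z (N.adjugate a b) = 0 := by
      intro a b
      obtain ⟨c, hc⟩ := det_dvd_adj N a a b b
      have h1 := congr_arg (eval z) hc
      rw [map_sub, map_mul, map_mul, map_mul, hcon a, hdet, hA b a] at h1
      have h2 : eval z (N.adjugate a b) * eval z (N.adjugate a b) = 0 := by
        linear_combination -h1
      exact mul_self_eq_zero.mp h2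
    obtain ⟨i, hi⟩ := hsm z hz hdet
    apply hi
    rw [eo_pdet, map_sum]
    refine Finset.sum_eq_zero fun a _ => ?_
    rw [map_sum]
    refine Finset.sum_eq_zero fun b _ => ?_
    rw [map_mul, h0, zero_mul]
  obtain ⟨i, hi⟩ := hex
  refine ⟨N.adjugate i i, 1, N.adjugate i j, hi, by simp, ?_⟩
  have h := det_dvd_adj N i i j j
  rw [hA j i] at h
  rw [one_mul, sq]
  exact h

theorem eo_core5 (δ π : P3) (n : ℕ) (hδ : δ.IsHomogeneous 5) (hirr : Irreducible δ)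
    (hsm : ∀ z : Fin 3 → ℂ, z ≠ 0 → eval z δ = 0 → ∃ i, eval z (pderiv i δ) ≠ 0)
    (hπ : Irreducible π) (hn : π.IsHomogeneous n) (hδπ : ¬ δ ∣ π) (d : ℕ) (g h : P3)
    (hh : h.IsHomogeneous d) (hπh : ¬ π ∣ h)
    (hgh : π ∣ g ^ 2 - X 0 * δ * h ^ 2) (z : Fin 3 → ℂ) (hz : z 0 ≠ 0) (hzδ : eval z δ = 0) :
    ∃ α β σ : P3, eval z α ≠ 0 ∧ eval z β ≠ 0 ∧ δ ∣ α * π - β * σ ^ 2 := by
  by_cases hπz : eval z π = 0
  swap
  · exact ⟨1, π, 1, by simp, hπz, by simp⟩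
  have hδ0 : ¬ X 0 ∣ δ := by
    intro h0
    obtain ⟨c, hc, h1⟩ := eo_X0 hirr h0
    rw [h1] at hzδ
    simp [hc, hz] at hzδ
  have hπ0 : ¬ X 0 ∣ π := by
    intro h0
    obtain ⟨c, hc, h1⟩ := eo_X0 hπ h0
    rw [h1] at hπz
    simp [hc, hz] at hπz
  set P : Fin 2 → ℂ := fun i => (z 0)⁻¹ * z i.succ with hP
  have hzP : z = z 0 • (Fin.cons 1 P : Fin 3 → ℂ) := by
    funext i
    refine Fin.cases ?_ (fun j => ?_) i
    · simp
    · simp [hP, hz]
  have hev : ∀ {G : P3} {m : ℕ}, G.IsHomogeneous m → eval z G = z 0 ^ m * eval P (dh2 G) := by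
    intro G m hG
    rw [eval_dh2, ← eo_eval_smul hG, ← hzP]
  have hPδ : eval P (dh2 δ) = 0 := by
    have := hev hδ
    rw [hzδ] at this
    exact (mul_eq_zero.mp this.symm).resolve_left (pow_ne_zero _ hz)
  have hX : dh2 (X 0 : P3) = 1 := by simp [dh2]
  obtain ⟨α, β, σ, hα, hβ, hd⟩ := even_affine (dh2 δ) (dh2 π) (dh2 g) (dh2 h)
    (irreducible_dh2 hδ hirr hδ0) (irreducible_dh2 hn hπ hπ0)
    (fun h0 => hδπ (dvd_of_dh2_dvd hδ hn hirr hδ0 h0))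
    (fun h0 => hπh (dvd_of_dh2_dvd hn hh hπ hπ0 h0))
    (by
      have := map_dvd dh2 hgh
      simpa only [map_sub, map_mul, map_pow, hX, one_mul] using this)
    P hPδ (smooth_dh2 hδ hsm P hPδ)
  set N1 := α.totalDegree + β.totalDegree + 2 * σ.totalDegree with hN1
  set N2 := α.totalDegree + β.totalDegree + n with hN2
  refine ⟨hmg2 N1 α, hmg2 N2 β, hmg2 σ.totalDegree σ, ?_, ?_, ?_⟩
  · rw [hev (hmg2_hom N1 α), dh2_hmg2 (by omega)]
    exact mul_ne_zero (pow_ne_zero _ hz) hα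
  · rw [hev (hmg2_hom N2 β), dh2_hmg2 (by omega)]
    exact mul_ne_zero (pow_ne_zero _ hz) hβ
  · have h1 : (hmg2 N1 α * π - hmg2 N2 β * hmg2 σ.totalDegree σ ^ 2).IsHomogeneous (N1 + n) := by
      apply IsHomogeneous.sub
      · exact (hmg2_hom N1 α).mul hn
      · have h2 := (hmg2_hom N2 β).mul ((hmg2_hom σ.totalDegree σ).pow 2)
        have h3 : N2 + σ.totalDegree * 2 = N1 + n := by omega
        rwa [h3] at h2
    refine dvd_of_dh2_dvd hδ h1 hirr hδ0 ?_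
    rw [map_sub, map_mul, map_mul, map_pow, dh2_hmg2 (by omega), dh2_hmg2 (by omega),
      dh2_hmg2 le_rfl]
    exact hd

open Pool.Agent.Helper16 in
theorem evenOn_mu {q μ : P3} {m : ℕ} (hq : q.IsHomogeneous 5) (hirr : Irreducible q)
    (hsm : ∀ z : Fin 3 → ℂ, z ≠ 0 → eval z q = 0 → ∃ i, eval z (pderiv i q) ≠ 0)
    (hμ : μ.IsHomogeneous m) (hμ0 : μ ≠ 0) (hqμ : ¬ q ∣ μ)
    (hnod : ∀ z : Fin 3 → ℂ, z ≠ 0 → z 0 = 0 → eval z q = 0 → eval z μ ≠ 0)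
    (hsp : ∀ π : P3, Irreducible π → π ∣ μ →
      ∃ g h : P3, ¬ π ∣ h ∧ π ∣ g ^ 2 - X 0 * q * h ^ 2) : EvenOn q μ := by
  apply evenOn_of_factors hμ0
  intro π hπ hd
  obtain ⟨g, h, h1, h2⟩ := hsp π hπ hd
  obtain ⟨ν, hν⟩ := hd
  obtain ⟨e, b, he, -, -⟩ := hom_factor (hν ▸ hμ) (hν ▸ hμ0)
  have hδ6 : (X 0 * q).IsHomogeneous 6 := by
    have := (isHomogeneous_X ℂ (0 : Fin 3)).mul hq
    exact this
  obtain ⟨d, g', h', hg', hh', h1', h2'⟩ := hom_sq3 he hπ hδ6 h1 h2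
  intro z hz hzq
  by_cases hz0 : z 0 = 0
  · refine ⟨1, π, 1, by simp, ?_, by simp⟩
    intro h3
    apply hnod z hz hz0 hzq
    rw [hν, map_mul, h3, zero_mul]
  · exact eo_core5 q π e hq hirr hsm hπ he (fun hd => hqμ (hν ▸ hd.mul_right _)) d g' h' hh' h1' h2'
      z hz0 hzq

end Pool.Agent.Helper80.EK
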