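import Pool.Agent.Helper29.HP.St.Six

set_option autoImplicit false

/-!
Piece EK-E1: five sections of the twist of a theta characteristic of a smooth plane quintic
(quintic version of `Pool.Agent.Helper29.HP.St.Six`).
-/

namespace Pool.Agent.Helper80.EK

open MvPolynomial Pool.Agent.Helper29 Pool.Agent.Helper29.HP Pool.Agent.Helper29.HP.Six

theorem not_X_dvd5 {δ : P3} (hirr : Irreducible δ) (hδ : δ.IsHomogeneous 5) : ¬ X 0 ∣ δ := by
  rintro ⟨q, hq⟩
  have hu : IsUnit q := (hirr.isUnit_or_isUnit hq).resolve_left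
    (Helper16.X_irreducible (0 : Fin 3)).not_isUnit
  have hne : X 0 * q ≠ 0 := by rw [← hq]; exact hirr.ne_zero
  rw [hq] at hδ
  obtain ⟨a, b, ha, hb, hab⟩ := Helper16.hom_factor hδ hne
  have ha1 : a = 1 := ha.inj_right (isHomogeneous_X _ _) (left_ne_zero_of_mul hne)
  have hev : eval 0 q = 0 := by
    have := Helper16.eval_smul_of_hom hb 0 (0 : Fin 3 → ℂ)
    rw [zero_smul, zero_pow (by omega), zero_mul] at this
    exact this
  have := hu.map (eval (0 : Fin 3 → ℂ))
  rw [hev] at this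
  exact not_isUnit_zero this

theorem finrank_mult5 {δ : P3} (hδ : δ.IsHomogeneous 5) (hδ0 : δ ≠ 0) (k : ℕ)
    (M : Submodule ℂ (homogeneousSubmodule (Fin 3) ℂ (k + 3)))
    (hM : ∀ x ∈ M, δ ∣ (x : P3)) : Module.finrank ℂ M ≤ k.choose 2 := by
  rcases Nat.lt_or_ge k 2 with hk | hk
  · have : M = ⊥ := by
      rw [eq_bot_iff]
      intro x hx
      rw [Submodule.mem_bot]
      by_contra hne
      obtain ⟨q, hq⟩ := hM x hx
      have hne' : (x : P3) ≠ 0 := fun h => hne (Subtype.ext h)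
      have h1 : (x : P3).IsHomogeneous (k + 3) := x.2
      rw [hq] at h1 hne'
      obtain ⟨a, b, ha, hb, hab⟩ := Helper16.hom_factor h1 hne'
      have ha1 : a = 5 := ha.inj_right hδ hδ0
      omega
    rw [this, finrank_bot]
    exact Nat.zero_le _
  · obtain ⟨l, rfl⟩ : ∃ l, k = l + 2 := ⟨k - 2, by omega⟩
    let φ : homogeneousSubmodule (Fin 3) ℂ l →ₗ[ℂ] homogeneousSubmodule (Fin 3) ℂ (l + 2 + 3) :=
      { toFun := fun x => ⟨δ * x.1, by
          have h1 : (δ * x.1).IsHomogeneous (5 + l) := hδ.mul x.2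
          have e1 : 5 + l = l + 2 + 3 := by ring
          rw [e1] at h1
          exact h1⟩
        map_add' := fun x y => by
          ext1
          simp only [Submodule.coe_add]
          ring
        map_smul' := fun a x => by
          ext1
          simp only [Submodule.coe_smul, RingHom.id_apply, mul_smul_comm] }
    have hle : M ≤ LinearMap.range φ := by
      intro x hx
      obtain ⟨q, hq⟩ := hM x hx
      by_cases hx0 : (x : P3) = 0
      · have : x = 0 := Subtype.ext hx0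
        rw [this]
        exact Submodule.zero_mem _
      · have h1 : (x : P3).IsHomogeneous (l + 2 + 3) := x.2
        rw [hq] at h1 hx0
        obtain ⟨a, b, ha, hb, hab⟩ := Helper16.hom_factor h1 hx0
        have ha1 : a = 5 := ha.inj_right hδ hδ0
        have hb1 : b = l := by omega
        subst hb1
        exact ⟨⟨q, hb⟩, Subtype.ext hq.symm⟩
    refine (Submodule.finrank_mono hle).trans ((LinearMap.finrank_range_le φ).trans ?_)
    rw [Helper16.finrank_hom3]

theorem exists_five_lin {δ : P3} (hδ : δ.IsHomogeneous 5) (hδ0 : δ ≠ 0) (k : ℕ) (b : Ideal P2)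
    (hfb : dh2 δ ∈ b) (hfin : FiniteDimensional ℂ (P2 ⧸ b))
    (hdim : Module.finrank ℂ (P2 ⧸ b) ≤ 5 * k + 5) :
    ∃ s : Fin 5 → P3, (∀ i, (s i).IsHomogeneous (k + 3)) ∧ (∀ i, dh2 (s i) ∈ b) ∧
      (∀ c : Fin 5 → ℂ, δ ∣ ∑ i, C (c i) * s i → c = 0) := by
  classical
  let L : homogeneousSubmodule (Fin 3) ℂ (k + 3) →ₗ[ℂ] P2 ⧸ b :=
    (Ideal.Quotient.mkₐ ℂ b).toLinearMap ∘ₗ dh2.toLinearMap ∘ₗ
      (homogeneousSubmodule (Fin 3) ℂ (k + 3)).subtype
  have hL : ∀ x : homogeneousSubmodule (Fin 3) ℂ (k + 3),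
      x ∈ LinearMap.ker L ↔ dh2 (x : P3) ∈ b := by
    intro x
    rw [LinearMap.mem_ker]
    exact Ideal.Quotient.eq_zero_iff_mem
  let M : Submodule ℂ (homogeneousSubmodule (Fin 3) ℂ (k + 3)) :=
    ((Ideal.span {δ} : Ideal P3).restrictScalars ℂ).comap
      (homogeneousSubmodule (Fin 3) ℂ (k + 3)).subtype
  have hM : ∀ x : homogeneousSubmodule (Fin 3) ℂ (k + 3), x ∈ M ↔ δ ∣ (x : P3) := by
    intro x
    change (x : P3) ∈ Ideal.span {δ} ↔ _
    exact Ideal.mem_span_singleton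
  have hMK : M ≤ LinearMap.ker L := by
    intro x hx
    rw [hL]
    obtain ⟨q, hq⟩ := (hM x).mp hx
    rw [hq, map_mul]
    exact b.mul_mem_right _ hfb
  have h1 := LinearMap.finrank_range_add_finrank_ker L
  have h2 : Module.finrank ℂ (LinearMap.range L) ≤ 5 * k + 5 :=
    (Submodule.finrank_le _).trans hdim
  have h3 : Module.finrank ℂ M ≤ k.choose 2 := finrank_mult5 hδ hδ0 k M (fun x hx => (hM x).mp hx)
  have h4 : Module.finrank ℂ (homogeneousSubmodule (Fin 3) ℂ (k + 3)) = (k + 3 + 2).choose 2 :=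
    Helper16.finrank_hom3 _
  have h7 : 5 + Module.finrank ℂ M ≤ Module.finrank ℂ (LinearMap.ker L) := by
    have c1 := two_mul_choose (k + 3)
    have c2 : 2 * k.choose 2 = k * (k - 1) := by
      rcases Nat.lt_or_ge k 2 with hk | hk
      · interval_cases k <;> simp
      · obtain ⟨l, rfl⟩ : ∃ l, k = l + 2 := ⟨k - 2, by omega⟩
        exact two_mul_choose l
    have c3 : k * (k - 1) + k = k * k := by
      rcases k with _ | k
      · rfl
      · rw [Nat.add_sub_cancel]; ring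
    have c4 : (k + 3 + 2) * (k + 3 + 1) = k * k + 9 * k + 20 := by ring
    rw [c4] at c1
    omega
  obtain ⟨v, hv1, hv2⟩ := exists_indep_mod M (LinearMap.ker L) hMK 5 h7
  refine ⟨fun i => (v i : P3), fun i => (v i).2, fun i => (hL _).mp (hv1 i), ?_⟩
  intro c hc
  apply hv2 c
  rw [hM]
  convert hc using 1
  rw [Submodule.coe_sum]
  refine Finset.sum_congr rfl fun i _ => ?_
  rw [Submodule.coe_smul, smul_eq_C_mul]

theorem exists_five_affine (δ h : P3) (k : ℕ) (hδ : δ.IsHomogeneous 5)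
    (hsm : ∀ z : Fin 3 → ℂ, z ≠ 0 → eval z δ = 0 → ∃ i, eval z (pderiv i δ) ≠ 0)
    (hh : h.IsHomogeneous (2 * k + 2)) (hδh : ¬ δ ∣ h) (hev : EvenOn δ h)
    (hinf : ∀ z : Fin 3 → ℂ, z ≠ 0 → z 0 = 0 → eval z δ = 0 → eval z h ≠ 0) :
    ∃ (s : Fin 5 → P3) (A : Matrix (Fin 5) (Fin 5) P3), (∀ i, (s i).IsHomogeneous (k + 3)) ∧
      (∀ c : Fin 5 → ℂ, δ ∣ ∑ i, C (c i) * s i → c = 0) ∧ A.IsSymm ∧
      (∀ i j, (A i j).IsHomogeneous 4) ∧ ∀ i j, δ ∣ s i * s j - h * A i j := by
  classical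
  have hirr : Irreducible δ := irreducible_of_smooth (by norm_num) hδ hsm
  have h0 : ¬ X 0 ∣ δ := not_X_dvd5 hirr hδ
  have hf : Irreducible (dh2 δ) := irreducible_dh2 hδ hirr h0
  have hfg : ¬ dh2 δ ∣ dh2 h := fun hd => hδh (dvd_of_dh2_dvd hδ hh hirr h0 hd)
  have hrel : IsRelPrime (dh2 δ) (dh2 h) := hf.isRelPrime_iff_not_dvd.mpr hfg
  obtain ⟨hfin, hdim⟩ := bezout_dim (dh2 δ) (dh2 h) 5 (2 * k + 2) (Six.totalDegree_dh2_le hδ)
    (Six.totalDegree_dh2_le hh) hrel
  obtain ⟨b, hfb, hb2, hbfin, hbdim⟩ := exists_sq_ideal (dh2 δ) (dh2 h) hf (smooth_dh2 hδ hsm) hfg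
    (by
      intro P hP
      rw [eval_dh2'] at hP
      obtain ⟨α, β, σ, hα, hβ, hd⟩ := hev (Fin.cons 1 P) (by
        intro h
        have := congrFun h 0
        simp at this) hP
      refine ⟨dh2 α, dh2 β, dh2 σ, by rwa [eval_dh2'], by rwa [eval_dh2'], ?_⟩
      have := map_dvd dh2 hd
      rwa [map_sub, map_mul, map_mul, map_pow] at this) hfin
  obtain ⟨s, hs1, hs2, hs3⟩ := exists_five_lin hδ hirr.ne_zero k b hfb hbfin (by omega)
  have hne : rh δ ≠ 0 := fun h => h0 (rh_eq_zero h)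
  have hrr : IsRelPrime (rh δ) (rh h) := rh_rel hδ h0 hinf
  have key : ∀ i j : Fin 5, ∃ A : P3, A.IsHomogeneous 4 ∧ δ ∣ s i * s j - h * A := by
    intro i j
    have hp : (s i * s j).IsHomogeneous (k + 3 + (k + 3)) := (hs1 i).mul (hs1 j)
    have hmem : dh2 (s i * s j) ∈ Ideal.span {dh2 δ, dh2 h} := by
      rw [map_mul]
      exact hb2 _ (hs2 i) _ (hs2 j)
    obtain ⟨N, hN⟩ := mem_of_dh2_mem hδ hh hp hmem
    obtain ⟨A, hA, hd⟩ := hom_decomp hδ hh hp (by omega) (by omega)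
      (mem_of_X_pow_mul hne hrr N hN)
    have e1 : k + 3 + (k + 3) - (2 * k + 2) = 4 := by omega
    rw [e1] at hA
    exact ⟨A, hA, hd⟩
  choose B hB1 hB2 using key
  refine ⟨s, Matrix.of fun i j => B (min i j) (max i j), hs1, hs3, ?_, fun i j => hB1 _ _, ?_⟩
  · ext1 i j
    rw [Matrix.transpose_apply, Matrix.of_apply, Matrix.of_apply, min_comm, max_comm]
  · intro i j
    rw [Matrix.of_apply]
    rcases le_total i j with hij | hij
    · rw [min_eq_left hij, max_eq_right hij]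
      exact hB2 i j
    · rw [min_eq_right hij, max_eq_left hij, mul_comm (s i)]
      exact hB2 j i

theorem exists_five (δ h : P3) (k : ℕ) (hδ : δ.IsHomogeneous 5)
    (hsm : ∀ z : Fin 3 → ℂ, z ≠ 0 → eval z δ = 0 → ∃ i, eval z (pderiv i δ) ≠ 0)
    (hh : h.IsHomogeneous (2 * k + 2)) (hδh : ¬ δ ∣ h) (hev : EvenOn δ h) :
    ∃ (s : Fin 5 → P3) (A : Matrix (Fin 5) (Fin 5) P3), (∀ i, (s i).IsHomogeneous (k + 3)) ∧
      (∀ c : Fin 5 → ℂ, δ ∣ ∑ i, C (c i) * s i → c = 0) ∧ A.IsSymm ∧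
      (∀ i j, (A i j).IsHomogeneous 4) ∧ ∀ i j, δ ∣ s i * s j - h * A i j := by
  classical
  have hirr : Irreducible δ := irreducible_of_smooth (by norm_num) hδ hsm
  have hrel : IsRelPrime δ h := hirr.isRelPrime_iff_not_dvd.mpr hδh
  have hh0 : h ≠ 0 := by
    rintro rfl
    exact hδh (dvd_zero _)
  obtain ⟨l, hl, hav⟩ := TR.exists_lin_avoid hδ hh hrel hh0
  obtain ⟨φ, hφ⟩ := exists_lequiv hl
  let a : (Fin 3 → ℂ) →ₗ[ℂ] (Fin 3 → ℂ) := φ.symm.toLinearMap
  let b : (Fin 3 → ℂ) →ₗ[ℂ] (Fin 3 → ℂ) := φ.toLinearMap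
  have hab : ∀ z, a (b z) = z := φ.symm_apply_apply
  have hba : ∀ z, b (a z) = z := φ.apply_symm_apply
  have h1 : ∀ p, lsub b (lsub a p) = p := lsub_lsub hab
  have h2 : ∀ p, lsub a (lsub b p) = p := lsub_lsub hba
  have ha0 : ∀ z, a z = 0 → z = 0 := by
    intro z hz
    rw [← hba z, hz, map_zero]
  obtain ⟨s, A, hs1, hs2, hA1, hA2, hA3⟩ := exists_five_affine (lsub a δ) (lsub a h) k
    (lsub_hom a hδ) (by
      intro z hz hzδ
      rw [eval_lsub] at hzδ
      obtain ⟨j, hj⟩ := hsm (a z) (fun h => hz (ha0 z h)) hzδ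
      by_contra hcon
      push Not at hcon
      apply hj
      let g : (Fin 3 → ℂ) →ₗ[ℂ] ℂ := ∑ j, (eval (a z) (pderiv j δ)) • LinearMap.proj j
      have hg : ∀ w, g w = ∑ j, eval (a z) (pderiv j δ) * w j := by
        intro w
        simp [g, LinearMap.sum_apply]
      have hg0 : g ∘ₗ a = 0 := by
        refine LinearMap.pi_ext' fun i => ?_
        ext
        have := hcon i
        rw [eval_pderiv_lsub, ← hg] at this
        simpa using this
      have hg1 : g (Pi.single j 1) = 0 := by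
        rw [← hab (Pi.single j 1)]
        exact LinearMap.congr_fun hg0 (b (Pi.single j 1))
      rw [hg, Finset.sum_eq_single j] at hg1
      · simpa using hg1
      · intro i _ hi
        rw [Pi.single_eq_of_ne hi, mul_zero]
      · intro h
        exact absurd (Finset.mem_univ j) h)
    (lsub_hom a hh) (by
      intro hd
      have := map_dvd (lsub b) hd
      rw [h1, h1] at this
      exact hδh this) (by
      intro z hz hzδ
      rw [eval_lsub] at hzδ
      obtain ⟨α, β, σ, hα, hβ, hd⟩ := hev (a z) (fun h => hz (ha0 z h)) hzδ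
      refine ⟨lsub a α, lsub a β, lsub a σ, by rwa [eval_lsub], by rwa [eval_lsub], ?_⟩
      have := map_dvd (lsub a) hd
      rwa [map_sub, map_mul, map_mul, map_pow] at this) (by
      intro z hz hz0 hzδ hzh
      rw [eval_lsub] at hzδ hzh
      apply hz
      apply ha0
      refine hav (a z) ?_ hzδ hzh
      rw [← hφ]
      change b (a z) 0 = 0
      rw [hba, hz0])
  refine ⟨fun i => lsub b (s i), Matrix.of fun i j => lsub b (A i j), fun i => lsub_hom b (hs1 i),
    ?_, ?_, fun i j => lsub_hom b (hA2 i j), ?_⟩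
  · intro c hc
    apply hs2 c
    have := map_dvd (lsub a) hc
    rw [map_sum] at this
    convert this using 1
    refine Finset.sum_congr rfl fun i _ => ?_
    rw [map_mul, h2, algHom_C]
    rfl
  · ext1 i j
    rw [Matrix.transpose_apply, Matrix.of_apply, Matrix.of_apply, hA1.apply]
  · intro i j
    have := map_dvd (lsub b) (hA3 i j)
    rwa [map_sub, map_mul, map_mul, h1, h1] at this

end Pool.Agent.Helper80.EK
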