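import Pool.Agent.Helper29.HP.St.NonSing

set_option autoImplicit false

/-!
Piece EK-E2: the matrix of quartics is invertible off the smooth quintic when the theta
characteristic has no section (quintic version of `Pool.Agent.Helper29.HP.St.NonSing`).
-/

namespace Pool.Agent.Helper80.EK

open MvPolynomial Pool.Agent.Helper29.HP

open Pool.Agent.Helper16 in
/-- five pairwise nonproportional points of a line, the first of them given -/
theorem five_points {l : (Fin 3 → ℂ) →ₗ[ℂ] ℂ} {p : Fin 3 → ℂ} (hp0 : p ≠ 0) (hlp : l p = 0) :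
    ∃ z : Fin 5 → (Fin 3 → ℂ), z 0 = p ∧ (∀ i, z i ≠ 0) ∧ (∀ i j, i ≠ j → z i ∉ (ℂ ∙ z j)) ∧
      ∀ i, l (z i) = 0 := by
  classical
  obtain ⟨q, hlq, hqp⟩ : ∃ q, l q = 0 ∧ q ∉ (ℂ ∙ p) := by
    by_contra hcon
    push Not at hcon
    have h1 : LinearMap.ker l ≤ (ℂ ∙ p) := fun q hq => hcon q (LinearMap.mem_ker.mp hq)
    have h2 := Submodule.finrank_mono h1
    rw [finrank_span_singleton hp0] at h2
    have h3 := LinearMap.finrank_range_add_finrank_ker l
    have h4 : Module.finrank ℂ (LinearMap.range l) ≤ 1 := by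
      have := Submodule.finrank_le (LinearMap.range l)
      simpa using this
    simp at h3
    omega
  have hind : ∀ a b : ℂ, a • p + b • q = 0 → a = 0 ∧ b = 0 := by
    intro a b hab
    have hb : b = 0 := by
      by_contra hb
      apply hqp
      refine Submodule.mem_span_singleton.mpr ⟨-(b⁻¹ * a), ?_⟩
      have h1 : b⁻¹ • (a • p + b • q) = 0 := by rw [hab, smul_zero]
      rw [smul_add, smul_smul, smul_smul, inv_mul_cancel₀ hb, one_smul] at h1
      rw [neg_smul]
      exact neg_eq_of_add_eq_zero_right h1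
    refine ⟨?_, hb⟩
    rw [hb, zero_smul, add_zero] at hab
    exact (smul_eq_zero.mp hab).resolve_right hp0
  let u : Fin 5 → ℂ := fun i => if i = 0 then 1 else (i : ℕ)
  let v : Fin 5 → ℂ := fun i => if i = 0 then 0 else 1
  have huv : ∀ i, ¬ (u i = 0 ∧ v i = 0) := by
    rintro i ⟨h1, h2⟩
    by_cases hi : i = 0
    · simp [u, hi] at h1
    · simp [v, hi] at h2
  have hcross : ∀ i j, i ≠ j → u i * v j - u j * v i ≠ 0 := by
    intro i j hij
    by_cases hi : i = 0
    · have hj : j ≠ 0 := fun h => hij (by rw [hi, h])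
      simp [u, v, hi, hj]
    · by_cases hj : j = 0
      · simp [u, v, hi, hj]
      · simp only [u, v, hi, hj, if_false, mul_one]
        intro h
        apply hij
        have h1 : ((i : ℕ) : ℂ) = ((j : ℕ) : ℂ) := by linear_combination h
        exact Fin.ext (Nat.cast_injective h1)
  refine ⟨fun i => u i • p + v i • q, ?_, ?_, ?_, ?_⟩
  · simp [u, v]
  · intro i h
    exact huv i (hind _ _ h)
  · intro i j hij hmem
    obtain ⟨a, ha⟩ := Submodule.mem_span_singleton.mp hmem
    have h1 : (a * u j - u i) • p + (a * v j - v i) • q = 0 := by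
      have : (a * u j - u i) • p + (a * v j - v i) • q =
          a • (u j • p + v j • q) - (u i • p + v i • q) := by module
      rw [this, ha, sub_self]
    obtain ⟨h2, h3⟩ := hind _ _ h1
    apply hcross i j hij
    linear_combination (-(v j)) * h2 + (u j) * h3
  · intro i
    rw [map_add, map_smul, map_smul, hlp, hlq, smul_zero, smul_zero, add_zero]

open Pool.Agent.Helper16 in
theorem nonsing5 (δ h : P3) (k : ℕ) (hδ : δ.IsHomogeneous 5) (hirr : Irreducible δ)
    (hh : h.IsHomogeneous (2 * k + 2)) (hδh : ¬ δ ∣ h)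
    (hne : ∀ s G : P3, s.IsHomogeneous (k + 2) → G.IsHomogeneous 2 → δ ∣ s ^ 2 - h * G → δ ∣ s)
    (s : Fin 5 → P3) (A : Matrix (Fin 5) (Fin 5) P3) (hs : ∀ i, (s i).IsHomogeneous (k + 3))
    (hli : ∀ c : Fin 5 → ℂ, δ ∣ ∑ i, C (c i) * s i → c = 0) (hA : A.IsSymm)
    (hA5 : ∀ i j, (A i j).IsHomogeneous 4) (hsA : ∀ i j, δ ∣ s i * s j - h * A i j)
    (p : Fin 3 → ℂ) (hp : eval p δ ≠ 0) : (A.map (eval p)).det ≠ 0 := by
  classical
  intro hdet
  obtain ⟨c, hc0, hc⟩ := Matrix.exists_mulVec_eq_zero_iff.mpr hdet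
  have hp0 : p ≠ 0 := by
    rintro rfl
    exact hp (eval_zero_of_hom hδ (by norm_num))
  -- sections
  let S : (Fin 5 → ℂ) → P3 := fun x => ∑ i, C (x i) * s i
  let a : (Fin 5 → ℂ) → (Fin 5 → ℂ) → P3 := fun x y => ∑ i, ∑ j, C (x i * y j) * A i j
  have hS : ∀ x, (S x).IsHomogeneous (k + 3) := fun x =>
    IsHomogeneous.sum _ _ _ fun i _ => (hs i).C_mul _
  have ha : ∀ x y, (a x y).IsHomogeneous 4 := fun x y =>
    IsHomogeneous.sum _ _ _ fun i _ => IsHomogeneous.sum _ _ _ fun j _ => (hA5 i j).C_mul _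
  have hSa : ∀ x y, δ ∣ S x * S y - h * a x y := by
    intro x y
    have h1 : S x * S y - h * a x y =
        ∑ i, ∑ j, C (x i * y j) * (s i * s j - h * A i j) := by
      simp only [S, a]
      rw [Finset.sum_mul_sum, Finset.mul_sum, ← Finset.sum_sub_distrib]
      refine Finset.sum_congr rfl fun i _ => ?_
      rw [Finset.mul_sum, ← Finset.sum_sub_distrib]
      refine Finset.sum_congr rfl fun j _ => ?_
      rw [map_mul]; ring
    rw [h1]
    exact Finset.dvd_sum fun i _ => Finset.dvd_sum fun j _ => (hsA i j).mul_left _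
  have hSc : ¬ δ ∣ S c := fun h1 => hc0 (hli c h1)
  have hSc0 : S c ≠ 0 := fun h1 => hSc (by rw [h1]; exact dvd_zero _)
  have hrel : IsRelPrime δ (S c) := (hirr.isRelPrime_iff_not_dvd).mpr hSc
  obtain ⟨l, hl, hlp, hlz⟩ := nonsing_line hδ (hS c) hrel hSc0 hp0 hp
  obtain ⟨z, hz0, hzn, hzz, hlzz⟩ := five_points hp0 hlp
  -- a member of the family divisible by the linear form
  obtain ⟨x, hx0, hx⟩ : ∃ x : Fin 5 → ℂ, x ≠ 0 ∧ ∀ i, eval (z i) (a c x) = 0 := by
    let M : Matrix (Fin 5) (Fin 5) ℂ := Matrix.of fun i j => ∑ m, c m * eval (z i) (A m j)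
    have hM : M.det = 0 := by
      apply Matrix.det_eq_zero_of_row_eq_zero 0
      intro j
      have h1 := congrFun hc j
      simp only [Matrix.mulVec, dotProduct, Matrix.map_apply, Pi.zero_apply] at h1
      simp only [M, Matrix.of_apply, hz0]
      rw [← h1]
      refine Finset.sum_congr rfl fun m _ => ?_
      rw [← hA.apply m j]; ring
    obtain ⟨x, hx0, hx⟩ := Matrix.exists_mulVec_eq_zero_iff.mpr hM
    refine ⟨x, hx0, fun i => ?_⟩
    have h1 := congrFun hx i
    simp only [Matrix.mulVec, dotProduct, Pi.zero_apply, M, Matrix.of_apply] at h1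
    simp only [a, map_sum, map_mul, eval_C]
    rw [← h1, Finset.sum_comm]
    refine Finset.sum_congr rfl fun j _ => ?_
    rw [Finset.sum_mul]
    refine Finset.sum_congr rfl fun m _ => ?_
    ring
  have hdvd : linp l ∣ a c x := by
    by_contra hnd
    have h1 : IsRelPrime (linp l) (a c x) := ((linp_irreducible hl).isRelPrime_iff_not_dvd).mpr hnd
    have h2 : a c x ≠ 0 := fun h2 => hnd (by rw [h2]; exact dvd_zero _)
    have := bezout (linp_hom l) (ha c x) h1 h2 z hzn hzz
      (fun i => by rw [eval_linp, hlzz i]) hx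
    omega
  -- the section is divisible by the linear form modulo `δ`
  obtain ⟨b, hb⟩ := hdvd
  obtain ⟨e, he⟩ := hSa c x
  obtain ⟨u, v, huv⟩ := regF hl hlz (p := δ) (q := S c) (a := -e) (b := S x)
    ⟨h * b, by rw [hb] at he; linear_combination he⟩
  obtain ⟨y, w, hy, hyw⟩ : ∃ y w : P3, y.IsHomogeneous (k + 2) ∧ S x = linp l * y + δ * w := by
    have h1 : homogeneousComponent (k + 3) (S x) = S x := by
      rw [homogeneousComponent_of_mem (hS x), if_pos rfl]
    have h2 : homogeneousComponent (k + 3) (linp l * u) =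
        linp l * homogeneousComponent (k + 2) u := by
      rw [show k + 3 = 1 + (k + 2) by ring]
      exact hc_mul (linp_hom l)
    have h3 : ∃ w, homogeneousComponent (k + 3) (δ * v) = δ * w := by
      by_cases hk : k + 3 < 5
      · exact ⟨0, by rw [hc_mul_zero hδ hk, mul_zero]⟩
      · obtain ⟨m, hm⟩ := Nat.exists_eq_add_of_le (not_lt.mp hk)
        rw [hm]
        exact ⟨_, hc_mul hδ⟩
    obtain ⟨w, hw⟩ := h3
    refine ⟨homogeneousComponent (k + 2) u, w, homogeneousComponent_isHomogeneous _ _, ?_⟩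
    rw [← h2, ← hw, ← map_add, ← huv, h1]
  -- no common zero with `δ` and `h`
  have hlh : ∀ z, l z = 0 → eval z δ = 0 → eval z h = 0 → z = 0 := by
    intro z h1 h2 h3
    refine hlz z h1 h2 ?_
    obtain ⟨e', he'⟩ := hSa c c
    have h4 := congrArg (eval z) he'
    rw [map_sub, map_mul, map_mul, map_mul, h2, h3, zero_mul, zero_mul, sub_zero] at h4
    exact mul_self_eq_zero.mp h4
  have hstep := nonsing_step (G := δ) (H := h) hl hh (by omega) hlh
  obtain ⟨e', he'⟩ := hSa x x
  obtain ⟨U, V, hUV⟩ : ∃ U V, y ^ 2 = δ * U + h * V := by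
    apply hstep
    apply hstep
    refine ⟨e' - 2 * linp l * y * w - δ * w ^ 2, a x x, ?_⟩
    rw [hyw] at he'
    linear_combination he'
  have hG : δ ∣ y ^ 2 - h * homogeneousComponent 2 V := by
    have h1 : homogeneousComponent (2 * k + 2 + 2) (y ^ 2) = y ^ 2 := by
      have h2 : (y ^ 2).IsHomogeneous (2 * k + 2 + 2) := by
        have := hy.pow 2
        rwa [show (k + 2) * 2 = 2 * k + 2 + 2 by ring] at this
      rw [homogeneousComponent_of_mem h2, if_pos rfl]
    have h2 : homogeneousComponent (2 * k + 2 + 2) (h * V) = h * homogeneousComponent 2 V :=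
      hc_mul hh
    obtain ⟨w', hw'⟩ : ∃ w', homogeneousComponent (2 * k + 2 + 2) (δ * U) = δ * w' := by
      by_cases hk : 2 * k + 2 + 2 < 5
      · exact ⟨0, by rw [hc_mul_zero hδ hk, mul_zero]⟩
      · obtain ⟨m, hm⟩ := Nat.exists_eq_add_of_le (not_lt.mp hk)
        rw [hm]
        exact ⟨_, hc_mul hδ⟩
    refine ⟨w', ?_⟩
    rw [← h1, ← h2, ← hw', ← map_sub, hUV]
    congr 1
    ring
  have hdy := hne y _ hy (homogeneousComponent_isHomogeneous 2 V) hG
  apply hx0
  apply hli
  change δ ∣ S x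
  rw [hyw]
  exact dvd_add (hdy.mul_left _) (dvd_mul_right _ _)

end Pool.Agent.Helper80.EK
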