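import Pool.Agent.Helper80.EK.Defs
import Pool.Agent.Helper80.EK.Five
import Pool.Agent.Helper80.EK.NonSing5
import Pool.Agent.Helper80.EK.Dix5
import Pool.Agent.Helper80.EK.Even5
import Pool.Agent.Helper80.EK.Dom5

set_option autoImplicit false

/-!
Piece EK-E5: assembly for Eckardt cubic fourfolds.
-/

namespace Pool.Agent.Helper80.EK

open MvPolynomial Pool.Agent.Helper29.HP

theorem psi_X0 : psi (X 0 : P3) = 1 := by simp [psi]

open Pool.Agent.Helper16 in
theorem main_of_net5 {c : Cub (I6 → ℂ)} (hP : c.Iso P0) (q : P3) (hq : q.IsHomogeneous 5)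
    (hirr : Irreducible q) (hdisc : c.disc = X 0 * q)
    (m : Fin 3 → Matrix (Fin 6) (Fin 6) ℂ) (hm : ∀ k, (m k).IsSymm)
    (hdet : (netP m).det = c.disc) (p : Fin 6 → ℂ) (hp : p ≠ 0)
    (hpp : ∀ k, p ⬝ᵥ (m k).mulVec p = 0)
    (hdom : ∀ h : P3, h ≠ 0 → ∃ v : Fin 6 → ℂ, eval (TT m p v) h ≠ 0)
    (μ : P3) {n : ℕ} (hμ : μ.IsHomogeneous n) (hμδ : ¬ q ∣ μ)
    (hsp : ∀ π : P3, Irreducible π → π ∣ μ → ∃ g h : P3, ¬ π ∣ h ∧ π ∣ g ^ 2 - c.disc * h ^ 2)
    (i : Fin 4) (j : Fin 6) (s : P3)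
    (hi : ¬ q ∣ (c.Nm (X : Fin 3 → P3)).adjugate i i)
    (hj : ¬ q ∣ (netP m).adjugate j j) {ni nj : ℕ}
    (hih : ((c.Nm (X : Fin 3 → P3)).adjugate i i).IsHomogeneous ni)
    (hjh : ((netP m).adjugate j j).IsHomogeneous nj)
    (hs : q ∣ s ^ 2 - μ * (c.Nm (X : Fin 3 → P3)).adjugate i i *
      (netP m).adjugate j j) : c.Rat4 := by
  have hμ0 : μ ≠ 0 := fun h => hμδ (h ▸ dvd_zero _)
  have hδh : c.disc.IsHomogeneous 6 := c.disc_hom
  have hprime : Prime (psi q) := psi_prime_of_deg hirr hq (by norm_num)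
  have hpsi : psi c.disc = psi q := by rw [hdisc, map_mul, psi_X0, one_mul]
  have hd0 : c.disc ≠ 0 := by
    rw [hdisc]
    exact mul_ne_zero (X_ne_zero _) hirr.ne_zero
  set N := c.Nm (X : Fin 3 → P3) with hN
  have hNs : N.IsSymm := c.Nm_symm _
  have hMs : (netP m).IsSymm := netP_symm m hm
  have hadjN : (N.map psi).adjugate = N.adjugate.map psi :=
    (AlgHom.map_adjugate psi N).symm
  have hadjM : ((netP m).map psi).adjugate = (netP m).adjugate.map psi :=
    (RingHom.map_adjugate (psi : P3 →+* AA) (netP m)).symm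
  have hdisc' : c.disc = N.det := rfl
  have hdN : (N.map psi).det = psi q := by
    rw [← hpsi, hdisc']; exact (AlgHom.map_det psi N).symm
  have hdM : ((netP m).map psi).det = psi q := by
    rw [← hpsi, ← hdet]; exact (RingHom.map_det (psi : P3 →+* AA) (netP m)).symm
  obtain ⟨u, v, huv, hb⟩ := purity (N.map psi) ((netP m).map psi) (map_symm _ hNs)
    (map_symm _ hMs) (psi q) (psi μ) (psi s) hprime hdN hdM (psi_ne_zero hμ hμ0)
    (fun h => hμδ (dvd_of_psi_dvd hirr hq hμ hprime h)) (by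
      rw [← hpsi]; exact psi_sq hμ hμ0 hδh hsp) i j (by
      rw [hadjN, Matrix.map_apply]
      exact fun h => hi (dvd_of_psi_dvd hirr hq hih hprime h)) (by
      rw [hadjM, Matrix.map_apply]
      exact fun h => hj (dvd_of_psi_dvd hirr hq hjh hprime h)) (by
      rw [hadjN, hadjM, Matrix.map_apply, Matrix.map_apply, ← map_pow, ← map_mul, ← map_mul,
        ← map_sub]
      exact map_dvd psi hs)
  have hK : ∀ Q : P3, algebraMap AA KK (psi Q) = psiK Q := fun Q => rfl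
  have hinj : Function.Injective (algebraMap AA KK) := IsFractionRing.injective AA KK
  have hNK : (N.map psi).map (algebraMap AA KK) = N.map psiK := by
    rw [Matrix.map_map]; rfl
  have hMK : ((netP m).map psi).map (algebraMap AA KK) = (netP m).map psiK := by
    rw [Matrix.map_map]; rfl
  have hdNK : (N.map psiK).det = psiK c.disc := (RingHom.map_det (psiK : P3 →+* KK) N).symm
  have hdMK : ((netP m).map psiK).det = psiK c.disc := by
    rw [← hdet]; exact (RingHom.map_det (psiK : P3 →+* KK) (netP m)).symm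
  have hδ0 : psiK c.disc ≠ 0 := by
    rw [psiK_apply, hpsi]
    intro h
    exact hprime.ne_zero (hinj (h.trans (map_zero _).symm))
  have hμK : psiK μ ≠ 0 := by
    rw [psiK_apply]
    intro h
    exact psi_ne_zero hμ hμ0 (hinj (h.trans (map_zero _).symm))
  have hpK : (fun i => algebraMap ℂ KK (p i)) ≠ 0 := by
    intro h
    apply hp
    funext k
    have h1 := congrFun h k
    have h2 : Function.Injective (algebraMap ℂ KK) := (algebraMap ℂ KK).injective
    exact h2 (h1.trans (map_zero _).symm)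
  rcases sim_or_iso (two_ne_zero) (N.map psiK) ((netP m).map psiK) (map_symm _ hNs)
    (map_symm _ hMs) (by rw [hdNK]; exact hδ0) (by rw [hdMK]; exact hδ0) (psiK μ) hμK
    (fun a k => algebraMap AA KK (u a k)) (fun a k => algebraMap AA KK (v a k)) (li_frac u v huv)
    (by
      intro a b
      have h1 := congrArg (algebraMap AA KK) (hb a b)
      rw [map_mul, ← map_bil, ← map_bil, hNK, hMK] at h1
      exact h1) (fun i => algebraMap ℂ KK (p i)) hpK (netP_base m psiK p hpp) with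
    ⟨y, hy, hy0⟩ | ⟨Φ, h1, h2⟩
  · exact rat4_of_iso hP y hy hy0
  · exact rat4_of_sim hP m hm p hp hpp (by rw [hdet]; exact hd0) hdom Φ (psiK μ) hμK h1 h2

/-- a common zero of a net of quadrics in five variables -/
theorem exists_base5 (m : Fin 3 → Matrix (Fin 5) (Fin 5) ℂ) :
    ∃ p : Fin 5 → ℂ, p ≠ 0 ∧ ∀ k, p ⬝ᵥ (m k).mulVec p = 0 := by
  have key : ∀ (k : Fin 3) (x : Fin 5 → ℂ), eval x (∑ i, ∑ j, C (m k i j) * (X i * X j) :
      MvPolynomial (Fin 5) ℂ) = x ⬝ᵥ (m k).mulVec x := by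
    intro k x
    simp only [map_sum, map_mul, eval_C, eval_X, dotProduct, Matrix.mulVec, Finset.mul_sum]
    refine Finset.sum_congr rfl fun i _ => Finset.sum_congr rfl fun j _ => ?_
    ring
  obtain ⟨x, hx, h⟩ := Pool.Agent.Helper16.exists_common_zero
    (fun k : Fin 3 => (∑ i, ∑ j, C (m k i j) * (X i * X j) : MvPolynomial (Fin 5) ℂ))
    (fun k => by rw [key]; simp) (by simp)
  exact ⟨x, hx, fun k => by rw [← key]; exact h k⟩

theorem ext6_base (m : Fin 3 → Matrix (Fin 5) (Fin 5) ℂ) (p : Fin 5 → ℂ)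
    (hp : ∀ k, p ⬝ᵥ (m k).mulVec p = 0) (k : Fin 3) :
    (Fin.cons 0 p : Fin 6 → ℂ) ⬝ᵥ (ext6 m k).mulVec (Fin.cons 0 p) = 0 := by
  have h := hp k
  simp only [dotProduct, Matrix.mulVec] at h ⊢
  rw [Fin.sum_univ_succ]
  simp only [Fin.cons_zero, zero_mul, zero_add, Fin.cons_succ]
  rw [← h]
  refine Finset.sum_congr rfl fun i _ => ?_
  congr 1
  rw [Fin.sum_univ_succ]
  simp

open Pool.Agent.Helper16 in
/-- the entry `(3, 3)` of the adjugate is not divisible by the quintic -/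
theorem adj22_not_dvd {c : Cub (I6 → ℂ)} {q : P3} (hq : q.IsHomogeneous 5) (hirr : Irreducible q)
    (hdisc : c.disc = X 0 * q) : ¬ q ∣ (c.Nm (X : Fin 3 → P3)).adjugate 3 3 := by
  intro h
  obtain ⟨n, hn, h33⟩ := c.adj_hom 3 3
  have hw : wt 3 = 0 := rfl
  rw [hw] at hn
  have hn' : n = 3 := by omega
  subst hn'
  have h0 := eq_zero_of_dvd_lt hq hirr.ne_zero h33 (by norm_num) h
  have h3i : ∀ i : Fin 4, (c.Nm (X : Fin 3 → P3)).adjugate i 3 = 0 := by
    intro i
    by_cases hi : i = 3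
    · rw [hi]; exact h0
    obtain ⟨n, hn, hi3⟩ := c.adj_hom i 3
    rw [hw] at hn
    have hwi : wt i = 1 := by
      rcases wt_cases i with ⟨_, h⟩ | ⟨h, _⟩
      · exact h
      · exact absurd h hi
    rw [hwi] at hn
    have hn' : n = 4 := by omega
    subst hn'
    apply eq_zero_of_dvd_lt hq hirr.ne_zero hi3 (by norm_num)
    have h1 := det_dvd_adj (c.Nm (X : Fin 3 → P3)) i 3 3 i
    have hs : (c.Nm (X : Fin 3 → P3)).adjugate 3 i = (c.Nm (X : Fin 3 → P3)).adjugate i 3 := by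
      have h2 : (c.Nm (X : Fin 3 → P3)).adjugate.transpose = (c.Nm (X : Fin 3 → P3)).adjugate := by
        rw [Matrix.adjugate_transpose, c.Nm_symm]
      exact (congrFun (congrFun h2 i) 3)
    rw [h0, hs, mul_zero, sub_eq_add_neg, ← sub_eq_add_neg] at h1
    have h3 : q ∣ (c.Nm (X : Fin 3 → P3)).adjugate i 3 ^ 2 := by
      rw [pow_two]
      have : (c.Nm (X : Fin 3 → P3)).det = c.disc := rfl
      rw [this, hdisc] at h1
      have h4 : q ∣ (c.Nm (X : Fin 3 → P3)).adjugate i i * 0 -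
          (c.Nm (X : Fin 3 → P3)).adjugate i 3 * (c.Nm (X : Fin 3 → P3)).adjugate i 3 :=
        (dvd_mul_left q (X 0)).trans (by simpa using h1)
      simpa using h4
    exact hirr.prime.dvd_of_dvd_pow h3
  have hne : c.disc ≠ 0 := by
    rw [hdisc]
    exact mul_ne_zero (X_ne_zero _) hirr.ne_zero
  apply hne
  have h4 := congrFun (congrFun (Matrix.mul_adjugate (c.Nm (X : Fin 3 → P3))) 3) 3
  rw [Matrix.mul_apply, Finset.sum_eq_zero (fun k _ => by rw [h3i k, mul_zero]),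
    Matrix.smul_apply, Matrix.one_apply_eq, smul_eq_mul, mul_one] at h4
  exact h4.symm

open Pool.Agent.Helper16 in
/-- The Eckardt theorem for trilinear forms. -/
theorem contact5 {c : Cub (I6 → ℂ)} (hP : c.Iso P0) (a : ℂ) (ha : a ≠ 0)
    (h00 : c.Nm (X : Fin 3 → P3) 0 0 = C a * X 0)
    (h0j : ∀ j : Fin 3, c.Nm (X : Fin 3 → P3) 0 j.succ = 0)
    (hsm : ∀ z : Fin 3 → ℂ, z ≠ 0 →
      eval z ((c.Nm (X : Fin 3 → P3)).submatrix Fin.succ Fin.succ).det = 0 →
      ∃ i, eval z (pderiv i ((c.Nm (X : Fin 3 → P3)).submatrix Fin.succ Fin.succ).det) ≠ 0)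
    (μ : P3) (k : ℕ) (hμ : μ.IsHomogeneous (2 * k))
    (hnod : ∀ z : Fin 3 → ℂ, z ≠ 0 → z 0 = 0 →
      eval z ((c.Nm (X : Fin 3 → P3)).submatrix Fin.succ Fin.succ).det = 0 → eval z μ ≠ 0)
    (hsp : ∀ π : P3, Irreducible π → π ∣ μ → ∃ g h : P3, ¬ π ∣ h ∧ π ∣ g ^ 2 - c.disc * h ^ 2)
    (hne : ∀ s G : P3, s.IsHomogeneous (k + 2) → G.IsHomogeneous 2 →
      ((c.Nm (X : Fin 3 → P3)).submatrix Fin.succ Fin.succ).det ∣
        s ^ 2 - μ * ((c.Nm (X : Fin 3 → P3)).submatrix Fin.succ Fin.succ).adjugate 2 2 * G →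
      ((c.Nm (X : Fin 3 → P3)).submatrix Fin.succ Fin.succ).det ∣ s) : c.Rat4 := by
  classical
  set N := c.Nm (X : Fin 3 → P3) with hN
  set M3 := N.submatrix Fin.succ Fin.succ with hM3
  have hdetN : N.det = C a * X 0 * M3.det := by rw [det_block N h0j, h00]
  obtain ⟨q, hqdef⟩ : ∃ q, q = C a * M3.det := ⟨_, rfl⟩
  have hdisc : c.disc = X 0 * q := by
    have h1 : c.disc = N.det := rfl
    rw [h1, hdetN, hqdef]; ring
  have hu : IsUnit (C a : P3) := (isUnit_iff_ne_zero.mpr ha).map C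
  have hqd : ∀ x : P3, q ∣ x ↔ M3.det ∣ x := fun x => by
    rw [hqdef]; exact hu.mul_left_dvd
  have hqe : ∀ z : Fin 3 → ℂ, eval z q = 0 ↔ eval z M3.det = 0 := by
    intro z
    rw [hqdef, map_mul, eval_C, mul_eq_zero, or_iff_right ha]
  have hq00 : M3.det ≠ 0 := by
    intro h
    obtain ⟨i, hi⟩ := hsm (Pi.single 0 1) (by simp) (by rw [h, map_zero])
    rw [h] at hi
    simp at hi
  have hq0 : q ≠ 0 := by
    rw [hqdef]; exact mul_ne_zero hu.ne_zero hq00
  have hδ6 : c.disc.IsHomogeneous 6 := c.disc_hom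
  have hq5 : q.IsHomogeneous 5 := by
    obtain ⟨a', b, ha', hb, hab⟩ := hom_factor (hdisc ▸ hδ6) (mul_ne_zero (X_ne_zero 0) hq0)
    have h1 : a' = 1 := ha'.inj_right (isHomogeneous_X ℂ 0) (X_ne_zero 0)
    have h2 : b = 5 := by omega
    rwa [h2] at hb
  have hsmq : ∀ z : Fin 3 → ℂ, z ≠ 0 → eval z q = 0 → ∃ i, eval z (pderiv i q) ≠ 0 := by
    intro z hz h
    obtain ⟨i, hi⟩ := hsm z hz ((hqe z).mp h)
    refine ⟨i, ?_⟩
    rw [hqdef, pderiv_C_mul, map_mul, eval_C]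
    exact mul_ne_zero ha hi
  have hirr : Irreducible q := irreducible_of_smooth (by norm_num) hq5 hsmq
  have hadj33 : N.adjugate 3 3 = C a * X 0 * M3.adjugate 2 2 := by
    have h1 := adj_block N h0j 2 2
    rw [h00] at h1
    exact h1
  have h33 : ¬ q ∣ N.adjugate 3 3 := adj22_not_dvd hq5 hirr hdisc
  have h22 : ¬ q ∣ M3.adjugate 2 2 := fun h => h33 (by rw [hadj33]; exact h.mul_left _)
  have h33h : (N.adjugate 3 3).IsHomogeneous 3 := by
    obtain ⟨n, hn, h⟩ := c.adj_hom 3 3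
    have hw : wt 3 = 0 := rfl
    rw [hw] at hn
    have hn' : n = 3 := by omega
    rwa [hn'] at h
  have h22h : (M3.adjugate 2 2).IsHomogeneous 2 := by
    have h1 := h33h
    have hne0 : C a * X 0 * M3.adjugate 2 2 ≠ 0 := by
      rw [← hadj33]
      intro h; exact h33 (h ▸ dvd_zero _)
    rw [hadj33] at h1
    obtain ⟨a', b, ha', hb, hab⟩ := hom_factor h1 hne0
    have h2 : a' = 1 := ha'.inj_right ((isHomogeneous_X ℂ (0 : Fin 3)).C_mul a)
      (left_ne_zero_of_mul hne0)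
    have h3 : b = 2 := by omega
    rwa [h3] at hb
  have hq_root : ∃ z : Fin 3 → ℂ, z ≠ 0 ∧ z 0 = 0 ∧ eval z q = 0 := by
    obtain ⟨x, hx0, hx1, hx2⟩ := exists_root_on_line (l := LinearMap.proj 0) (q := q)
      (eval_zero_of_hom hq5 (by norm_num))
    exact ⟨x, hx0, hx1, hx2⟩
  have hnod' : ∀ z : Fin 3 → ℂ, z ≠ 0 → z 0 = 0 → eval z q = 0 → eval z μ ≠ 0 :=
    fun z hz hz0 h => hnod z hz hz0 ((hqe z).mp h)
  have hμq : ¬ q ∣ μ := by
    rintro ⟨ν, hν⟩
    obtain ⟨z, hz, hz0, h⟩ := hq_root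
    apply hnod' z hz hz0 h
    rw [hν, map_mul, h, zero_mul]
  have hμ0 : μ ≠ 0 := fun h => hμq (h ▸ dvd_zero _)
  have hμe : EvenOn q μ := evenOn_mu hq5 hirr hsmq hμ hμ0 hμq hnod' (by
    intro π hπ hd
    obtain ⟨g, h, h1, h2⟩ := hsp π hπ hd
    exact ⟨g, h, h1, by rwa [hdisc] at h2⟩)
  have hNs : N.IsSymm := c.Nm_symm _
  have hM3s : M3.IsSymm := by
    apply Matrix.IsSymm.ext
    intro i j
    exact hNs.apply _ _
  have hadje : EvenOn q (M3.adjugate 2 2) := by
    intro z hz hzq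
    obtain ⟨α, β, σ, h1, h2, h3⟩ := evenOn_adj5 M3 hM3s hsm 2 z hz ((hqe z).mp hzq)
    exact ⟨α, β, σ, h1, h2, (hqd _).mpr h3⟩
  have hhe : EvenOn q (μ * M3.adjugate 2 2) := evenOn_mul hμe hadje
  have hhh : (μ * M3.adjugate 2 2).IsHomogeneous (2 * k + 2) := hμ.mul h22h
  have hhδ : ¬ q ∣ μ * M3.adjugate 2 2 := by
    intro h
    rcases hirr.prime.dvd_or_dvd h with h | h
    · exact hμq h
    · exact h22 h
  obtain ⟨s, A, hs, hli, hA, hA4, hsA⟩ := exists_five q (μ * M3.adjugate 2 2) k hq5 hsmq hhh hhδ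
    hhe
  have hns := nonsing5 q (μ * M3.adjugate 2 2) k hq5 hirr hhh hhδ
    (fun s G hs hG h => (hqd s).mpr (hne s G hs hG ((hqd _).mp h))) s A hs hli hA hA4 hsA
  have hmin : ∀ i j k l, q ∣ A i j * A k l - A i l * A k j := by
    intro i j k l
    have h1 : q ∣ (μ * M3.adjugate 2 2) ^ 2 * (A i j * A k l - A i l * A k j) := by
      have e : (μ * M3.adjugate 2 2) ^ 2 * (A i j * A k l - A i l * A k j) =
          (s i * s l - μ * M3.adjugate 2 2 * A i l) * (s k * s j) +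
          (μ * M3.adjugate 2 2 * A i l) * (s k * s j - μ * M3.adjugate 2 2 * A k j) -
          (s i * s j - μ * M3.adjugate 2 2 * A i j) * (s k * s l) -
          (μ * M3.adjugate 2 2 * A i j) * (s k * s l - μ * M3.adjugate 2 2 * A k l) := by ring
      rw [e]
      exact dvd_sub (dvd_sub (dvd_add ((hsA i l).mul_right _) ((hsA k j).mul_left _))
        ((hsA i j).mul_right _)) ((hsA k l).mul_left _)
    rcases hirr.prime.dvd_or_dvd h1 with h | h
    · exact absurd (hirr.prime.dvd_of_dvd_pow h) hhδ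
    · exact h
  obtain ⟨M, hM, hM1, hMd, b, hb, hMa⟩ := dix5 q hq5 hirr A hA hA4 hmin hns
  let m5 : Fin 3 → Matrix (Fin 5) (Fin 5) ℂ := fun k =>
    Matrix.of fun i j => coeff (Finsupp.single k 1) (M i j)
  have hm5 : ∀ k, (m5 k).IsSymm := by
    intro k
    apply Matrix.IsSymm.ext
    intro i j
    simp only [m5, Matrix.of_apply]
    rw [hM.apply]
  have hMm : net5 m5 = M := by
    ext1 i j
    rw [net5, Matrix.of_apply]
    exact (linear_eq (hM1 i j)).symm
  obtain ⟨e00, e0j, esub⟩ := netP_ext6 m5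
  have hdet6 : (netP (ext6 m5)).det = c.disc := by
    rw [det_block _ e0j, e00, esub, hMm, hMd, hdisc]
  have hadj6 : (netP (ext6 m5)).adjugate 1 1 = X 0 * (C b * A 0 0) := by
    have h1 := adj_block _ e0j 0 0
    rw [e00, esub, hMm, hMa] at h1
    exact h1
  obtain ⟨p, hp, hpp⟩ := exists_base5 m5
  obtain ⟨r, hr⟩ := IsAlgClosed.exists_pow_nat_eq (a * b) (n := 2) (by norm_num)
  have hA00 : ¬ q ∣ A 0 0 := by
    intro h
    have h1 : q ∣ s 0 ^ 2 := by
      have h2 := hsA 0 0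
      have h3 : s 0 ^ 2 = (s 0 * s 0 - μ * M3.adjugate 2 2 * A 0 0) +
          μ * M3.adjugate 2 2 * A 0 0 := by ring
      rw [h3]
      exact dvd_add h2 (h.mul_left _)
    have h2 := hirr.prime.dvd_of_dvd_pow h1
    have h3 := hli (Pi.single 0 1) (by
      rw [Finset.sum_eq_single 0]
      · simpa using h2
      · intro b _ hb
        simp [hb]
      · simp)
    have h4 := congrFun h3 0
    simp at h4
  have hqX : ¬ q ∣ X 0 := by
    intro h
    have h1 := eq_zero_of_dvd_lt hq5 hq0 (isHomogeneous_X ℂ (0 : Fin 3)) (by norm_num) h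
    exact X_ne_zero _ h1
  refine main_of_net5 hP q hq5 hirr hdisc (ext6 m5) (ext6_symm m5 hm5) hdet6 (Fin.cons 0 p) ?_
    (ext6_base m5 p hpp) (fun h hh => dominant5 m5 hm5 p hp hpp (by rw [hMm, hMd]; exact hirr)
      (by rw [hMm, hMd]; exact hsmq) h hh) μ hμ hμq hsp 3 1 (C r * X 0 * s 0) h33 (ni := 3)
      (nj := 5) ?_ h33h ?_ ?_
  · intro h
    apply hp
    funext i
    have := congrFun h i.succ
    simpa using this
  · rw [hadj6]
    intro h
    rcases hirr.prime.dvd_or_dvd h with h | h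
    · exact hqX h
    rcases hirr.prime.dvd_or_dvd h with h | h
    · exact hirr.not_isUnit (isUnit_of_dvd_unit h ((isUnit_iff_ne_zero.mpr hb).map C))
    · exact hA00 h
  · rw [hadj6]
    exact (isHomogeneous_X ℂ (0 : Fin 3)).mul ((hA4 0 0).C_mul b)
  · rw [hadj6, hadj33]
    have h1 : (C r * X 0 * s 0) ^ 2 - μ * (C a * X 0 * M3.adjugate 2 2) *
        (X 0 * (C b * A 0 0)) =
        (C a * C b * X 0 ^ 2) * (s 0 * s 0 - μ * M3.adjugate 2 2 * A 0 0) := by
      have h2 : (C r : P3) ^ 2 = C a * C b := by rw [← C_pow, hr, C_mul]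
      linear_combination (X 0 * s 0) ^ 2 * h2
    rw [h1]
    exact (hsA 0 0).mul_left _

end Pool.Agent.Helper80.EK
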