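import Pool.Agent.Helper80.EK.Defs
import Pool.Agent.Helper16.CubicSing2
import Pool.Agent.Helper79.HR.EP7

set_option autoImplicit false
set_option linter.unusedSimpArgs false

/-!
Piece EK-E9: a smooth cubic fourfold with an Eckardt point on a plane, for which the quintic of the
projection from the plane is singular, contains two disjoint planes.
-/

namespace Pool.Agent.Helper80.EK

open MvPolynomial Module Pool.Agent.Helper16 Pool.Agent.Helper16.Cub

theorem plane_avoid {c : Cub (I6 → ℂ)} (hP : c.Iso P0) {b : Fin 3 → ℂ} (hb : b ≠ 0)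
    {v v' : Fin 4 → ℂ} (hli : LinearIndependent ℂ ![v, v']) (hv : c.Rad b v) (hv' : c.Rad b v')
    {e : Fin 4 → ℂ} (he : c.nf b e e ≠ 0) (he3 : e 3 = 0) :
    ∃ A : Submodule ℂ (I6 → ℂ), c.Pl A ∧ vY ℂ e ∉ A := by
  -- a third isotropic vector
  set R2 : Submodule ℂ (Fin 4 → ℂ) := Submodule.span ℂ (Set.range ![v, v']) with hR2
  have hR2d : finrank ℂ R2 = 2 := by
    rw [hR2, finrank_span_eq_card hli]; simp
  obtain ⟨Q, hQ⟩ := Submodule.exists_isCompl R2
  have hQd : finrank ℂ Q = 2 := by
    have := Submodule.finrank_add_eq_of_isCompl hQ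
    rw [hR2d] at this
    have h4 : finrank ℂ (Fin 4 → ℂ) = 4 := by simp
    omega
  obtain ⟨g, hgQ, hg0, hgg⟩ := Q1' (c.nf b) Q (by omega)
  have hgR : g ∉ R2 := by
    intro h
    have : g ∈ R2 ⊓ Q := ⟨h, hgQ⟩
    rw [hQ.inf_eq_bot] at this
    exact hg0 ((Submodule.mem_bot ℂ).mp this)
  set H : Submodule ℂ (Fin 4 → ℂ) := R2 ⊔ ℂ ∙ g with hH
  have hradR2 : ∀ x ∈ R2, c.Rad b x := by
    intro x hx
    rw [hR2] at hx
    induction hx using Submodule.span_induction with
    | mem x hx =>
      obtain ⟨i, rfl⟩ := hx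
      fin_cases i
      · exact hv
      · exact hv'
    | zero => intro y; simp
    | add x y _ _ h1 h2 => intro z; rw [map_add, LinearMap.add_apply, h1, h2, add_zero]
    | smul a x _ h1 => intro z; rw [map_smul, LinearMap.smul_apply, h1, smul_zero]
  have hHiso : ∀ x ∈ H, c.nf b x x = 0 := by
    intro x hx
    obtain ⟨a, ha, d, hd, rfl⟩ := Submodule.mem_sup.mp hx
    obtain ⟨r, rfl⟩ := Submodule.mem_span_singleton.mp hd
    rw [map_add (c.nf b), LinearMap.add_apply, hradR2 a ha, zero_add, map_add, c.nf_symm b _ a,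
      hradR2 a ha, zero_add]
    simp [hgg]
  have hHd : finrank ℂ H = 3 := by
    have h1 : finrank ℂ R2 < finrank ℂ H := by
      apply Submodule.finrank_lt_finrank_of_lt
      rw [lt_iff_le_and_ne]
      refine ⟨le_sup_left, fun he => hgR ?_⟩
      rw [he]; exact Submodule.mem_sup_right (Submodule.mem_span_singleton_self _)
    have h2 := Submodule.finrank_add_le_finrank_add_finrank R2 (ℂ ∙ g)
    have h3 := finrank_span_singleton (K := ℂ) hg0
    rw [h3] at h2
    change finrank ℂ H ≤ _ at h2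
    omega
  have hinj : Function.Injective (pt b) := by
    rw [← LinearMap.ker_eq_bot, Submodule.eq_bot_iff]
    intro x hx
    exact pt_inj hb (LinearMap.mem_ker.mp hx)
  have hAd : finrank ℂ (H.map (pt b)) = 3 := by
    rw [← hHd]
    exact (Submodule.equivMapOfInjective (pt b) hinj H).finrank_eq.symm
  have hAiso : c.Iso (H.map (pt b)) := by
    rintro _ ⟨x, hx, rfl⟩
    rw [T_pt hP, hHiso x hx, mul_zero]
  refine ⟨H.map (pt b), ⟨hAd, hAiso⟩, ?_⟩
  rintro ⟨x, hx, hxe⟩
  have h1 : pt b e = vY ℂ e := by rw [pt_apply, he3, zero_smul, add_zero]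
  have h2 : x = e := hinj (hxe.trans h1.symm)
  exact he (h2 ▸ hHiso x hx)

theorem Nm_at {c : Cub (I6 → ℂ)} (z : Fin 3 → ℂ) (i j : Fin 4) :
    c.Nm z i j = eval z (c.Nm (X : Fin 3 → R3) i j) := by
  have h := congrFun (congrFun (c.Nm_eval z) i) j
  rw [← h, Matrix.map_apply]

/-- the first base vector is an Eckardt point -/
theorem eck_e0 {c : Cub (I6 → ℂ)} (hP : c.Iso P0) (a : ℂ) (ha : a ≠ 0)
    (h00 : c.Nm (X : Fin 3 → R3) 0 0 = C a * X 0)
    (h0j : ∀ j : Fin 3, c.Nm (X : Fin 3 → R3) 0 j.succ = 0) (v : I6 → ℂ)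
    (h : c.T (iY ℂ (Pi.single 0 1)) (iY ℂ (Pi.single 0 1)) v = 0) :
    c.T (iY ℂ (Pi.single 0 1)) v v = 0 := by
  set p := iY ℂ (Pi.single 0 1 : Fin 3 → ℂ) with hp
  have hvY : vY ℂ (Pi.single 0 1 : Fin 4 → ℂ) = p := by
    funext i
    rcases i with i | i
    · rw [vY_inl, hp, iY_inl]
      by_cases hi : i = 0
      · subst hi; simp
      · have : i.castSucc ≠ 0 := by
          intro h1; apply hi; apply Fin.ext
          have := congrArg Fin.val h1
          simpa using this
        simp [hi, this]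
    · simp [hp]
  have hnf : ∀ (z : Fin 3 → ℂ) (w : Fin 4 → ℂ),
      c.nf z (Pi.single 0 1) w = a * z 0 * w 0 := by
    intro z w
    rw [nf_single_left, Matrix.mulVec, dotProduct, Fin.sum_univ_succ]
    have h1 : c.Nm z 0 0 = a * z 0 := by rw [Nm_at, h00]; simp
    have h2 : ∀ j : Fin 3, c.Nm z 0 j.succ = 0 := fun j => by rw [Nm_at, h0j, map_zero]
    simp only [h1, h2, zero_mul, Finset.sum_const_zero, add_zero]
  -- the bilinear form of `p`
  have h1 : ∀ (y z : Fin 3 → ℂ), c.T p (iY ℂ y) (iZ ℂ z) = a * z 0 * y 0 := by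
    intro y z
    have h2 := hnf z (mk4 y 0)
    rw [nf_complex, hvY, vY_mk4, mk4_3] at h2
    have h3 : (Pi.single 0 1 : Fin 4 → ℂ) 3 = 0 := by simp
    rw [h3] at h2
    simp only [zero_mul, add_zero, mul_zero] at h2
    rw [h2]
    rfl
  have h4 : ∀ z : Fin 3 → ℂ, c.T p (iZ ℂ z) (iZ ℂ z) = 0 := by
    intro z
    have h2 := hnf z (Pi.single 3 1)
    rw [nf_complex, hvY] at h2
    have h3 : (Pi.single 0 1 : Fin 4 → ℂ) 3 = 0 := by simp
    have h5 : (Pi.single 3 1 : Fin 4 → ℂ) 0 = 0 := by simp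
    have h6 : vY ℂ (Pi.single 3 1 : Fin 4 → ℂ) = 0 := by
      funext i
      rcases i with i | i
      · rw [vY_inl]
        have : i.castSucc ≠ 3 := by
          intro h1
          have := congrArg Fin.val h1
          have := i.isLt
          simp at *
          omega
        simp [this]
      · simp
    rw [h3, h5, h6] at h2
    simp only [map_zero, LinearMap.zero_apply, zero_mul, mul_zero, add_zero, zero_add,
      Pi.single_eq_same, one_mul] at h2
    linear_combination 2 * h2
  have hp0 : p = iY ℂ (Pi.single 0 1 : Fin 3 → ℂ) := rfl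
  have hpp : ∀ y : Fin 3 → ℂ, c.T p (iY ℂ y) (iY ℂ y) = 0 := by
    intro y
    exact hP.three (iY_mem _) (iY_mem y) (iY_mem y)
  rw [decomp v] at h ⊢
  have h7 : c.T p p (iY ℂ (pY ℂ v)) = 0 := hP.two (iY_mem _) (iY_mem _)
  have h8 : c.T p p (iZ ℂ (pZ ℂ v)) = a * pZ ℂ v 0 := by
    have := h1 (Pi.single 0 1) (pZ ℂ v)
    rw [← hp0] at this
    rw [this]; simp
  rw [map_add, h7, h8, zero_add] at h
  have h9 : pZ ℂ v 0 = 0 := (mul_eq_zero.mp h).resolve_left ha
  simp only [map_add, LinearMap.add_apply]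
  rw [hpp, h4, c.s23 p (iZ ℂ (pZ ℂ v)) (iY ℂ (pY ℂ v)), h1, h9]
  ring

/-- the vector `(1, 0, 0)` of the base plane -/
theorem vY_single : vY ℂ (Pi.single 0 1 : Fin 4 → ℂ) = iY ℂ (Pi.single 0 1 : Fin 3 → ℂ) := by
  funext i
  rcases i with i | i
  · rw [vY_inl, iY_inl]
    by_cases hi : i = 0
    · subst hi; simp
    · have : i.castSucc ≠ 0 := by
        intro h1; apply hi; apply Fin.ext
        have := congrArg Fin.val h1
        simpa using this
      simp [hi, this]
  · simp

theorem adj_mulVec_aux3 {S : Type*} [CommRing S] (M : Matrix (Fin 3) (Fin 3) S) (v : Fin 3 → S)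
    (i : Fin 3) : ∑ j, M.adjugate i j * M.mulVec v j = M.det * v i := by
  have h1 : M.adjugate.mulVec (M.mulVec v) = M.det • v := by
    rw [Matrix.mulVec_mulVec, Matrix.adjugate_mul, Matrix.smul_mulVec, Matrix.one_mulVec]
  exact congrFun h1 i

/-- a symmetric matrix with one dimensional kernel: entry of the adjugate -/
theorem adj_ne {n : ℕ} (M : Matrix (Fin (n + 1)) (Fin (n + 1)) ℂ) (hM : M.IsSymm)
    {v : Fin (n + 1) → ℂ} (hv : M.mulVec v = 0)
    (hmult : ∀ u, M.mulVec u = 0 → ∃ a : ℂ, u = a • v) {i : Fin (n + 1)} (hi : v i ≠ 0) :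
    M.adjugate i i ≠ 0 := by
  rw [Matrix.adjugate_fin_succ_eq_det_submatrix]
  intro h
  have hdet : (M.submatrix i.succAbove i.succAbove).det = 0 := by
    rcases mul_eq_zero.mp h with h | h
    · exact absurd h (pow_ne_zero _ (by norm_num))
    · exact h
  obtain ⟨w, hw0, hw⟩ := Matrix.exists_mulVec_eq_zero_iff.mpr hdet
  set w' : Fin (n + 1) → ℂ := i.insertNth 0 w with hw'
  have h1 : ∀ j, M.mulVec w' (i.succAbove j) = 0 := by
    intro j
    have h2 := congrFun hw j
    simp only [Matrix.mulVec, dotProduct, Matrix.submatrix_apply, Pi.zero_apply] at h2 ⊢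
    rw [Fin.sum_univ_succAbove _ i]
    simp only [hw', Fin.insertNth_apply_same, Fin.insertNth_apply_succAbove, mul_zero, zero_add]
    exact h2
  have h3 : v ⬝ᵥ M.mulVec w' = 0 := by
    rw [Matrix.dotProduct_mulVec, ← Matrix.mulVec_transpose, hM.eq, hv, zero_dotProduct]
  have h4 : M.mulVec w' i = 0 := by
    rw [dotProduct, Fin.sum_univ_succAbove _ i] at h3
    simp only [h1, mul_zero, Finset.sum_const_zero, add_zero] at h3
    exact (mul_eq_zero.mp h3).resolve_left hi
  have h5 : M.mulVec w' = 0 := by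
    funext m
    refine Fin.succAboveCases i ?_ ?_ m
    · exact h4
    · exact h1
  obtain ⟨a, ha⟩ := hmult w' h5
  have h6 : a = 0 := by
    have := congrFun ha i
    simp only [hw', Fin.insertNth_apply_same, Pi.smul_apply, smul_eq_mul] at this
    exact (mul_eq_zero.mp this.symm).resolve_right hi
  apply hw0
  funext j
  have := congrFun ha (i.succAbove j)
  simpa [hw', h6] using this

theorem nf_cons {c : Cub (I6 → ℂ)} (v : Fin 3 → ℂ) :
    c.nf (X : Fin 3 → R3) (fun i => C ((Fin.cons 0 v : Fin 4 → ℂ) i))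
      (fun i => C ((Fin.cons 0 v : Fin 4 → ℂ) i)) =
    ∑ j, C (v j) * ((c.Nm (X : Fin 3 → R3)).submatrix Fin.succ Fin.succ).mulVec
      (fun i => C (v i)) j := by
  rw [nf_eq_dot]
  generalize c.Nm (X : Fin 3 → R3) = N
  simp only [dotProduct, Matrix.mulVec]
  rw [Fin.sum_univ_succ]
  simp only [Fin.cons_zero, map_zero, zero_mul, zero_add, Fin.cons_succ]
  refine Finset.sum_congr rfl fun j _ => ?_
  congr 1
  rw [Fin.sum_univ_succ]
  simp only [Fin.cons_zero, map_zero, mul_zero, zero_add, Fin.cons_succ, Matrix.submatrix_apply]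

/-- a smooth cubic has no point of the line `z 0 = 0` where the quintic is singular -/
theorem no_sing_inf {c : Cub (I6 → ℂ)} (hP : c.Iso P0) (a : ℂ)
    (h00 : c.Nm (X : Fin 3 → R3) 0 0 = C a * X 0)
    (h0j : ∀ j : Fin 3, c.Nm (X : Fin 3 → R3) 0 j.succ = 0)
    {b : Fin 3 → ℂ} (hb : b ≠ 0) (hb0 : b 0 = 0)
    (h0 : eval b ((c.Nm (X : Fin 3 → R3)).submatrix Fin.succ Fin.succ).det = 0)
    (hd : ∀ k, eval b (pderiv k ((c.Nm (X : Fin 3 → R3)).submatrix Fin.succ Fin.succ).det) = 0) :
    False := by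
  classical
  set M : Matrix (Fin 3) (Fin 3) R3 := (c.Nm (X : Fin 3 → R3)).submatrix Fin.succ Fin.succ with hM
  set Mb : Matrix (Fin 3) (Fin 3) ℂ := M.map (eval b) with hMb
  have hMbs : Mb.IsSymm := by
    apply Matrix.IsSymm.ext
    intro i j
    have h1 := congrFun (congrFun (c.Nm_symm (X : Fin 3 → R3)) i.succ) j.succ
    rw [Matrix.transpose_apply] at h1
    rw [hMb, Matrix.map_apply, Matrix.map_apply, hM, Matrix.submatrix_apply,
      Matrix.submatrix_apply, h1]
  have hdetb : Mb.det = 0 := by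
    rw [hMb]
    have := RingHom.map_det (eval b) M
    rw [RingHom.mapMatrix_apply] at this
    rw [← this]; exact h0
  -- the radical of the form over `b`
  have hN00 : c.Nm b 0 0 = 0 := by rw [Nm_at, h00]; simp [hb0]
  have hN0j : ∀ j : Fin 3, c.Nm b 0 j.succ = 0 := fun j => by rw [Nm_at, h0j, map_zero]
  have hNj0 : ∀ j : Fin 3, c.Nm b j.succ 0 = 0 := fun j => by
    have h1 := congrFun (congrFun (c.Nm_symm b) j.succ) 0
    rw [Matrix.transpose_apply] at h1
    rw [← h1, hN0j]
  have hNss : ∀ i j : Fin 3, c.Nm b i.succ j.succ = Mb i j := fun i j => by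
    rw [Nm_at, hMb, Matrix.map_apply, hM, Matrix.submatrix_apply]
  have hrad : ∀ (t : ℂ) (w : Fin 3 → ℂ), Mb.mulVec w = 0 →
      c.Rad b (Fin.cons t w : Fin 4 → ℂ) := by
    intro t w hw
    rw [rad_iff]
    funext i
    refine Fin.cases ?_ (fun i => ?_) i
    · rw [Matrix.mulVec, dotProduct, Fin.sum_univ_succ, hN00]
      simp [hN0j]
    · have h1 := congrFun hw i
      rw [Matrix.mulVec, dotProduct] at h1
      rw [Matrix.mulVec, dotProduct, Fin.sum_univ_succ, hNj0]
      simp only [hNss, Fin.cons_zero, Fin.cons_succ, zero_mul, zero_add]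
      exact h1
  obtain ⟨v, hv0, hv⟩ := Matrix.exists_mulVec_eq_zero_iff.mpr hdetb
  by_cases hmult : ∀ u, Mb.mulVec u = 0 → ∃ a : ℂ, u = a • v
  · obtain ⟨i, hi⟩ := Function.ne_iff.mp hv0
    have hi : v i ≠ 0 := hi
    set A := Mb.adjugate with hA
    have hAii : A i i ≠ 0 := adj_ne Mb hMbs hv hmult hi
    have hArow : Mb.mulVec (fun j => A i j) = 0 := by
      funext m
      have h1 : (A * Mb) i m = 0 := by
        rw [hA, Matrix.adjugate_mul, hdetb, zero_smul]; rfl
      rw [Matrix.mul_apply] at h1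
      simp only [Matrix.mulVec, dotProduct, Pi.zero_apply]
      rw [← h1]
      refine Finset.sum_congr rfl fun j _ => ?_
      rw [hMbs.apply j m, mul_comm]
    obtain ⟨κ, hκ⟩ := hmult _ hArow
    have hκ' : ∀ j, A i j = κ * v j := fun j => congrFun hκ j
    have hκ0 : κ ≠ 0 := by
      rintro rfl
      apply hAii; rw [hκ' i, zero_mul]
    have hv4 : (Fin.cons 0 v : Fin 4 → ℂ) ≠ 0 := by
      intro h
      apply hv0
      funext j
      have := congrFun h j.succ
      simpa using this
    apply hv4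
    refine Rad.eq_zero hP hb (hrad 0 v hv) fun k => ?_
    rw [← eval_pderiv_nf]
    set vR : Fin 3 → R3 := fun i => C (v i) with hvR
    set w : Fin 3 → R3 := M.mulVec vR with hw
    have hwj : ∀ j, eval b (w j) = 0 := by
      intro j
      refine Eq.trans ?_ (congrFun hv j)
      change eval b (∑ m, M j m * C (v m)) = ∑ m, Mb j m * v m
      rw [map_sum]
      refine Finset.sum_congr rfl fun m _ => ?_
      rw [map_mul, eval_C]
      rfl
    have hid := adj_mulVec_aux3 M vR i
    rw [← hw] at hid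
    have hadj : ∀ j, eval b (M.adjugate i j) = A i j := by
      intro j
      have := RingHom.map_adjugate (eval b) M
      rw [RingHom.mapMatrix_apply, RingHom.mapMatrix_apply] at this
      rw [hA, hMb, ← this, Matrix.map_apply]
    have hder := congrArg (fun p => eval b (pderiv k p)) hid
    simp only [map_sum, Derivation.leibniz, smul_eq_mul, map_add, map_mul, hvR, pderiv_C, mul_zero,
      zero_add, hd, hwj, zero_mul, add_zero, hadj, hκ', map_zero] at hder
    have h7 : c.nf (X : Fin 3 → R3) (fun i => C ((Fin.cons 0 v : Fin 4 → ℂ) i))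
        (fun i => C ((Fin.cons 0 v : Fin 4 → ℂ) i)) = ∑ j, C (v j) * w j := nf_cons v
    rw [h7]
    simp only [map_sum, Derivation.leibniz, smul_eq_mul, map_add, map_mul, pderiv_C, mul_zero,
      hwj, zero_mul, add_zero, eval_C, map_zero]
    have h8 : κ * ∑ j, v j * eval b (pderiv k (w j)) = 0 := by
      rw [Finset.mul_sum, ← hder]
      refine Finset.sum_congr rfl fun j _ => ?_
      ring
    exact (mul_eq_zero.mp h8).resolve_left hκ0
  · push Not at hmult
    obtain ⟨u, hu, hu'⟩ := hmult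
    -- a three dimensional radical
    let L : (Fin 3 → ℂ) →ₗ[ℂ] (Fin 4 → ℂ) :=
      { toFun := fun x => Fin.cons (x 0) (x 1 • v + x 2 • u)
        map_add' := fun x y => by
          funext i
          refine Fin.cases ?_ (fun i => ?_) i
          · simp
          · simp; ring
        map_smul' := fun r x => by
          funext i
          refine Fin.cases ?_ (fun i => ?_) i
          · simp
          · simp; ring }
    have hLrad : ∀ x, c.Rad b (L x) := by
      intro x
      apply hrad
      rw [Matrix.mulVec_add, Matrix.mulVec_smul, Matrix.mulVec_smul, hv, hu, smul_zero, smul_zero,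
        add_zero]
    have hLinj : Function.Injective L := by
      rw [injective_iff_map_eq_zero]
      intro x hx
      have h1 : x 0 = 0 := congrFun hx 0
      have h2 : x 1 • v + x 2 • u = 0 := by
        funext j
        exact congrFun hx j.succ
      have h3 : x 2 = 0 := by
        by_contra h3
        apply hu' (-(x 2)⁻¹ * x 1)
        have h4 : x 2 • u = -(x 1 • v) := by
          rw [eq_neg_iff_add_eq_zero, add_comm]; exact h2
        have h5 : (x 2)⁻¹ • (x 2 • u) = u := by rw [smul_smul, inv_mul_cancel₀ h3, one_smul]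
        rw [← h5, h4, smul_neg, smul_smul, neg_mul, neg_smul]
      have h4 : x 1 = 0 := by
        rw [h3, zero_smul, add_zero] at h2
        exact (smul_eq_zero.mp h2).resolve_right hv0
      funext j
      fin_cases j
      · exact h1
      · exact h4
      · exact h3
    have hptinj : Function.Injective (pt b) := by
      rw [← LinearMap.ker_eq_bot, Submodule.eq_bot_iff]
      intro x hx
      exact pt_inj hb (LinearMap.mem_ker.mp hx)
    refine c.ns2 (W := LinearMap.range ((pt b).comp L)) (U := P0 ⊔ ℂ ∙ iZ ℂ b) ?_ ?_ ?_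
    · have h1 : finrank ℂ (P0 ⊔ ℂ ∙ iZ ℂ b : Submodule ℂ (I6 → ℂ)) ≥ 4 := by
        have h2 : finrank ℂ P0 < finrank ℂ (P0 ⊔ ℂ ∙ iZ ℂ b : Submodule ℂ (I6 → ℂ)) := by
          apply Submodule.finrank_lt_finrank_of_lt
          rw [lt_iff_le_and_ne]
          refine ⟨le_sup_left, fun he => hb ?_⟩
          have : iZ ℂ b ∈ P0 := by
            rw [he]
            exact Submodule.mem_sup_right (Submodule.mem_span_singleton_self _)
          rw [mem_P0, pZ_iZ] at this
          exact this
        rw [finrank_P0] at h2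
        omega
      rw [finrank_I6]
      omega
    · have h9 : Function.Injective ((pt b).comp L) := by
        rw [LinearMap.coe_comp]
        exact hptinj.comp hLinj
      rw [LinearMap.finrank_range_of_inj h9]
      simp
    · rintro _ ⟨x, rfl⟩ y hy
      obtain ⟨y1, hy1, y2, hy2, rfl⟩ := Submodule.mem_sup.mp hy
      obtain ⟨r, rfl⟩ := Submodule.mem_span_singleton.mp hy2
      rw [LinearMap.comp_apply, map_add, map_smul, (hLrad x).T_Y hP hy1, (hLrad x).T_Z, smul_zero,
        add_zero]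

/-- **Dichotomy.** A smooth cubic fourfold with an Eckardt point on a plane contains two disjoint
planes, or the quintic of the projection from the plane is smooth. -/
theorem smooth_or_disjoint {c : Cub (I6 → ℂ)} (hP : c.Iso P0) (a : ℂ) (ha : a ≠ 0)
    (h00 : c.Nm (X : Fin 3 → R3) 0 0 = C a * X 0)
    (h0j : ∀ j : Fin 3, c.Nm (X : Fin 3 → R3) 0 j.succ = 0) :
    (∃ A B : Submodule ℂ (I6 → ℂ), c.Pl A ∧ c.Pl B ∧ A ⊓ B = ⊥) ∨
    ∀ z : Fin 3 → ℂ, z ≠ 0 →
      eval z ((c.Nm (X : Fin 3 → R3)).submatrix Fin.succ Fin.succ).det = 0 →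
      ∃ i, eval z (pderiv i ((c.Nm (X : Fin 3 → R3)).submatrix Fin.succ Fin.succ).det) ≠ 0 := by
  have hp0 : iY ℂ (Pi.single 0 1 : Fin 3 → ℂ) ≠ 0 := by
    intro h
    have := congrFun h (.inl 0)
    simp at this
  rcases Pool.Agent.Helper79.HR.eck_summary finrank_I6 hp0 (eck_e0 hP a ha h00 h0j)
    (⟨finrank_P0, hP⟩ : c.Pl P0) (iY_mem _) with h | ⟨hall, -, -⟩
  · exact Or.inl h
  right
  intro z hz h0
  by_contra hcon
  push Not at hcon
  by_cases hz0 : z 0 = 0
  · exact no_sing_inf hP a h00 h0j hz hz0 h0 hcon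
  -- a singular point of the discriminant off the line
  set q := ((c.Nm (X : Fin 3 → R3)).submatrix Fin.succ Fin.succ).det with hq
  have hdisc : c.disc = C a * X 0 * q := by
    have h1 : c.disc = (c.Nm (X : Fin 3 → R3)).det := rfl
    rw [h1, det_block _ h0j, h00]
  obtain ⟨v, v', hli, hv, hv'⟩ := sing hP hz (by rw [hdisc, map_mul, h0, mul_zero]) (by
    intro k
    rw [hdisc, Derivation.leibniz, smul_eq_mul, smul_eq_mul, map_add, map_mul, map_mul (eval z) q,
      hcon k, h0, mul_zero, zero_mul, add_zero])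
  have hnf : c.nf z (Pi.single 0 1) (Pi.single 0 1) ≠ 0 := by
    have h1 : c.nf z (Pi.single 0 1) (Pi.single 0 1) = a * z 0 := by
      rw [← Nm_apply, Nm_at, h00]; simp
    rw [h1]; exact mul_ne_zero ha hz0
  obtain ⟨A, hA, hAe⟩ := plane_avoid hP hz hli hv hv' hnf (by simp)
  apply hAe
  rw [vY_single]
  exact hall A hA

end Pool.Agent.Helper80.EK
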