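import Pool.Agent.Helper29.HP.Defs

set_option autoImplicit false

/-!
Project EK (MP_ffd2c1_ag): Eckardt cubic fourfolds whose quintic has an even twisted theta
characteristic are rational.  Shared definitions and the block matrices.
-/

namespace Pool.Agent.Helper80.EK

open MvPolynomial Pool.Agent.Helper29.HP

/-- the matrix of the net spanned by three symmetric matrices of size five -/
noncomputable def net5 (m : Fin 3 → Matrix (Fin 5) (Fin 5) ℂ) : Matrix (Fin 5) (Fin 5) P3 :=
  Matrix.of fun i j => ∑ k, C (m k i j) * X k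

/-- the net `⟨X 0⟩ ⟂ m` of size six -/
def ext6 (m : Fin 3 → Matrix (Fin 5) (Fin 5) ℂ) (k : Fin 3) : Matrix (Fin 6) (Fin 6) ℂ :=
  Matrix.of fun i j => Fin.cases (Fin.cases (if k = 0 then 1 else 0) (fun _ => 0) j)
    (fun i' => Fin.cases 0 (fun j' => m k i' j') j) i

@[simp] theorem ext6_zero_zero (m : Fin 3 → Matrix (Fin 5) (Fin 5) ℂ) (k : Fin 3) :
    ext6 m k 0 0 = if k = 0 then 1 else 0 := rfl

@[simp] theorem ext6_zero_succ (m : Fin 3 → Matrix (Fin 5) (Fin 5) ℂ) (k : Fin 3) (j : Fin 5) :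
    ext6 m k 0 j.succ = 0 := rfl

@[simp] theorem ext6_succ_zero (m : Fin 3 → Matrix (Fin 5) (Fin 5) ℂ) (k : Fin 3) (j : Fin 5) :
    ext6 m k j.succ 0 = 0 := rfl

@[simp] theorem ext6_succ_succ (m : Fin 3 → Matrix (Fin 5) (Fin 5) ℂ) (k : Fin 3) (i j : Fin 5) :
    ext6 m k i.succ j.succ = m k i j := rfl

theorem ext6_symm (m : Fin 3 → Matrix (Fin 5) (Fin 5) ℂ) (hm : ∀ k, (m k).IsSymm) (k : Fin 3) :
    (ext6 m k).IsSymm := by
  apply Matrix.IsSymm.ext
  intro i j
  refine Fin.cases ?_ (fun i => ?_) i <;> refine Fin.cases ?_ (fun j => ?_) j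
  · rfl
  · rfl
  · rfl
  · simp only [ext6_succ_succ]
    exact (hm k).apply i j

/-- determinant of a matrix with a one dimensional block -/
theorem det_block {R : Type*} [CommRing R] {n : ℕ} (N : Matrix (Fin (n + 1)) (Fin (n + 1)) R)
    (h : ∀ j : Fin n, N 0 j.succ = 0) : N.det = N 0 0 * (N.submatrix Fin.succ Fin.succ).det := by
  rw [Matrix.det_succ_row_zero, Fin.sum_univ_succ]
  simp only [h, Fin.val_zero, pow_zero, one_mul, mul_zero, zero_mul, Finset.sum_const_zero,
    add_zero]
  rfl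

/-- diagonal entries of the adjugate of a matrix with a one dimensional block -/
theorem adj_block {R : Type*} [CommRing R] {n : ℕ} (N : Matrix (Fin (n + 2)) (Fin (n + 2)) R)
    (h : ∀ j : Fin (n + 1), N 0 j.succ = 0) (i j : Fin (n + 1)) :
    N.adjugate i.succ j.succ = N 0 0 * (N.submatrix Fin.succ Fin.succ).adjugate i j := by
  rw [Matrix.adjugate_fin_succ_eq_det_submatrix, Matrix.adjugate_fin_succ_eq_det_submatrix,
    det_block]
  · have e : ((N.submatrix j.succ.succAbove i.succ.succAbove).submatrix Fin.succ Fin.succ) =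
        (N.submatrix Fin.succ Fin.succ).submatrix j.succAbove i.succAbove := by
      ext a b
      simp [Matrix.submatrix_apply, Fin.succ_succAbove_succ]
    rw [e]
    simp only [Matrix.submatrix_apply, Fin.succ_succAbove_zero, Fin.val_succ]
    ring
  · intro k
    simp [Matrix.submatrix_apply, Fin.succ_succAbove_succ, h]

theorem netP_ext6 (m : Fin 3 → Matrix (Fin 5) (Fin 5) ℂ) :
    netP (ext6 m) 0 0 = X 0 ∧ (∀ j : Fin 5, netP (ext6 m) 0 j.succ = 0) ∧
      (netP (ext6 m)).submatrix Fin.succ Fin.succ = net5 m := by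
  refine ⟨?_, ?_, ?_⟩
  · simp [netP, Fin.sum_univ_three]
  · intro j
    simp [netP]
  · ext1 i j
    simp [netP, net5]

end Pool.Agent.Helper80.EK
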